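import Mathlib

/-!
# Rational bounds for the arctangent

The convergents of the continued fraction of `arctan`, in the form `N ≤ arctan x * D` or `arctan x * D ≤ N`.
-/

set_option autoImplicit false

noncomputable section

namespace Pool.Agent.SQE

/-- A function with non-negative derivative on `[0, ∞)` and value `0` at `0` is non-negative. -/
theorem AT_mono (g g' : ℝ → ℝ) (h : ∀ x, 0 ≤ x → HasDerivAt g (g' x) x) (hn : ∀ x, 0 ≤ x → 0 ≤ g' x)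
    (h0 : g 0 = 0) (x : ℝ) (hx : 0 ≤ x) : 0 ≤ g x := by
  have hm : MonotoneOn g (Set.Ici 0) := by
    refine monotoneOn_of_deriv_nonneg (convex_Ici 0) (fun y hy => (h y hy).continuousAt.continuousWithinAt) ?_ ?_
    · intro y hy
      rw [interior_Ici] at hy
      exact (h y (le_of_lt hy)).differentiableAt.differentiableWithinAt
    · intro y hy
      rw [interior_Ici] at hy
      rw [(h y (le_of_lt hy)).deriv]
      exact hn y (le_of_lt hy)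
  have := hm (Set.mem_Ici.2 le_rfl) (Set.mem_Ici.2 hx) hx
  rw [h0] at this
  exact this

/-- The comparison of `arctan` with a quotient. -/
theorem AT_cmp (s : ℝ) (_hs : s = 1 ∨ s = -1) (N D N' D' : ℝ → ℝ) (hN : ∀ x, HasDerivAt N (N' x) x)
    (hD : ∀ x, HasDerivAt D (D' x) x) (hD0 : ∀ x, 0 < D x) (hN0 : N 0 = 0)
    (hc : ∀ x, 0 ≤ x → 0 ≤ s * (D x ^ 2 - (1 + x ^ 2) * (N' x * D x - N x * D' x))) (x : ℝ) (hx : 0 ≤ x) :
    0 ≤ s * (Real.arctan x * D x - N x) := by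
  have h := AT_mono (fun y => s * (Real.arctan y - N y / D y))
    (fun y => s * (1 / (1 + y ^ 2) - (N' y * D y - N y * D' y) / D y ^ 2)) (by
      intro y _
      exact ((Real.hasDerivAt_arctan y).sub ((hN y).div (hD y) (hD0 y).ne')).const_mul s) (by
      intro y hy
      have h1 : s * (1 / (1 + y ^ 2) - (N' y * D y - N y * D' y) / D y ^ 2) =
          s * (D y ^ 2 - (1 + y ^ 2) * (N' y * D y - N y * D' y)) / ((1 + y ^ 2) * D y ^ 2) := by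
        have := (hD0 y).ne'
        have h2 : (1 + y ^ 2) ≠ 0 := by positivity
        field_simp
      rw [h1]
      exact div_nonneg (hc y hy) (by have := hD0 y; positivity)) (by simp [hN0]) x hx
  have h2 : s * (Real.arctan x * D x - N x) = s * (Real.arctan x - N x / D x) * D x := by
    have := (hD0 x).ne'
    field_simp
  rw [h2]
  exact mul_nonneg h (hD0 x).le

theorem AT_pw (c : ℝ) (k : ℕ) (x : ℝ) : HasDerivAt (fun y : ℝ => c * y ^ (k + 1)) (c * (((k + 1 : ℕ) : ℝ) * x ^ k)) x := by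
  have h := (hasDerivAt_pow (k + 1) x).const_mul c
  simpa using h

theorem AT_add {f g : ℝ → ℝ} {f' g' x : ℝ} (hf : HasDerivAt f f' x) (hg : HasDerivAt g g' x) :
    HasDerivAt (fun y => f y + g y) (f' + g') x := hf.add hg

theorem AT_c {f : ℝ → ℝ} {f' x : ℝ} (c : ℝ) (hf : HasDerivAt f f' x) : HasDerivAt (fun y => c + f y) f' x := hf.const_add c

theorem AT_1 (c : ℝ) (x : ℝ) : HasDerivAt (fun y : ℝ => c * y) c x := by
  simpa using (hasDerivAt_id x).const_mul c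

theorem at1 (x : ℝ) (hx : 0 ≤ x) : Real.arctan x ≤ x := by
  have h := AT_cmp (-1) (Or.inr rfl) (fun x => x) (fun _ => 1) (fun _ => 1) (fun _ => 0)
    (fun x => hasDerivAt_id x) (fun x => hasDerivAt_const x 1) (fun _ => one_pos) rfl
    (fun y _ => by nlinarith [sq_nonneg y]) x hx
  linarith

theorem at2 (x : ℝ) (hx : 0 ≤ x) : 3 * x ≤ Real.arctan x * (3 + x ^ 2) := by
  have h := AT_cmp 1 (Or.inl rfl) (fun x => 3 * x) (fun x => 3 + x ^ 2) (fun _ => 3) (fun x => 2 * x)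
    (fun x => by simpa using AT_pw 3 0 x)
    (fun x => by simpa using (((hasDerivAt_pow 2 x).const_add (3 : ℝ)))) (fun y => by positivity) (by norm_num)
    (fun y _ => by
      have : 1 * ((3 + y ^ 2) ^ 2 - (1 + y ^ 2) * (3 * (3 + y ^ 2) - 3 * y * (2 * y))) = 4 * y ^ 4 := by ring
      rw [this]; positivity) x hx
  linarith

theorem at3 (x : ℝ) (hx : 0 ≤ x) :
    Real.arctan x * (15 + 9 * x ^ 2) ≤ 15 * x + 4 * x ^ 3 := by
  have h := AT_cmp (-1) (Or.inr rfl) (fun x => 15 * x + 4 * x ^ 3) (fun x => 15 + 9 * x ^ 2)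
    (fun x => 15 + 4 * (3 * x ^ 2)) (fun x => 9 * (2 * x))
    (fun x => by simpa using (AT_add (AT_1 15 x) (AT_pw 4 2 x)))
    (fun x => by simpa using (AT_c 15 (AT_pw 9 1 x)))
    (fun y => by positivity) (by norm_num)
    (fun y _ => by
      have : -1 * ((15 + 9 * y ^ 2) ^ 2 - (1 + y ^ 2) * ((15 + 4 * (3 * y ^ 2)) * (15 + 9 * y ^ 2) -
        (15 * y + 4 * y ^ 3) * (9 * (2 * y)))) = 36 * y ^ 6 := by ring
      rw [this]; positivity) x hx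
  linarith

theorem at4 (x : ℝ) (hx : 0 ≤ x) :
    105 * x + 55 * x ^ 3 ≤ Real.arctan x * (105 + 90 * x ^ 2 + 9 * x ^ 4) := by
  have h := AT_cmp 1 (Or.inl rfl) (fun x => 105 * x + 55 * x ^ 3) (fun x => 105 + 90 * x ^ 2 + 9 * x ^ 4)
    (fun x => 105 + 55 * (3 * x ^ 2)) (fun x => 90 * (2 * x) + 9 * (4 * x ^ 3))
    (fun x => by simpa using (AT_add (AT_1 105 x) (AT_pw 55 2 x)))
    (fun x => by simpa using (AT_add (AT_c 105 (AT_pw 90 1 x)) (AT_pw 9 3 x)))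
    (fun y => by positivity) (by norm_num)
    (fun y _ => by
      have : 1 * ((105 + 90 * y ^ 2 + 9 * y ^ 4) ^ 2 - (1 + y ^ 2) * ((105 + 55 * (3 * y ^ 2)) * (105 + 90 * y ^ 2 + 9 * y ^ 4) -
        (105 * y + 55 * y ^ 3) * (90 * (2 * y) + 9 * (4 * y ^ 3)))) = 576 * y ^ 8 := by ring
      rw [this]; positivity) x hx
  linarith

theorem at5 (x : ℝ) (hx : 0 ≤ x) :
    Real.arctan x * (945 + 1050 * x ^ 2 + 225 * x ^ 4) ≤ 945 * x + 735 * x ^ 3 + 64 * x ^ 5 := by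
  have h := AT_cmp (-1) (Or.inr rfl) (fun x => 945 * x + 735 * x ^ 3 + 64 * x ^ 5) (fun x => 945 + 1050 * x ^ 2 + 225 * x ^ 4)
    (fun x => 945 + 735 * (3 * x ^ 2) + 64 * (5 * x ^ 4)) (fun x => 1050 * (2 * x) + 225 * (4 * x ^ 3))
    (fun x => by simpa using (AT_add (AT_add (AT_1 945 x) (AT_pw 735 2 x)) (AT_pw 64 4 x)))
    (fun x => by simpa using (AT_add (AT_c 945 (AT_pw 1050 1 x)) (AT_pw 225 3 x)))
    (fun y => by positivity) (by norm_num)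
    (fun y _ => by
      have : -1 * ((945 + 1050 * y ^ 2 + 225 * y ^ 4) ^ 2 - (1 + y ^ 2) * ((945 + 735 * (3 * y ^ 2) + 64 * (5 * y ^ 4)) * (945 + 1050 * y ^ 2 + 225 * y ^ 4) -
        (945 * y + 735 * y ^ 3 + 64 * y ^ 5) * (1050 * (2 * y) + 225 * (4 * y ^ 3)))) = 14400 * y ^ 10 := by ring
      rw [this]; positivity) x hx
  linarith

theorem at6 (x : ℝ) (hx : 0 ≤ x) :
    1155 * x + 1190 * x ^ 3 + 231 * x ^ 5 ≤ Real.arctan x * (1155 + 1575 * x ^ 2 + 525 * x ^ 4 + 25 * x ^ 6) := by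
  have h := AT_cmp 1 (Or.inl rfl) (fun x => 1155 * x + 1190 * x ^ 3 + 231 * x ^ 5) (fun x => 1155 + 1575 * x ^ 2 + 525 * x ^ 4 + 25 * x ^ 6)
    (fun x => 1155 + 1190 * (3 * x ^ 2) + 231 * (5 * x ^ 4)) (fun x => 1575 * (2 * x) + 525 * (4 * x ^ 3) + 25 * (6 * x ^ 5))
    (fun x => by simpa using (AT_add (AT_add (AT_1 1155 x) (AT_pw 1190 2 x)) (AT_pw 231 4 x)))
    (fun x => by simpa using (AT_add (AT_add (AT_c 1155 (AT_pw 1575 1 x)) (AT_pw 525 3 x)) (AT_pw 25 5 x)))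
    (fun y => by positivity) (by norm_num)
    (fun y _ => by
      have : 1 * ((1155 + 1575 * y ^ 2 + 525 * y ^ 4 + 25 * y ^ 6) ^ 2 - (1 + y ^ 2) * ((1155 + 1190 * (3 * y ^ 2) + 231 * (5 * y ^ 4)) * (1155 + 1575 * y ^ 2 + 525 * y ^ 4 + 25 * y ^ 6) -
        (1155 * y + 1190 * y ^ 3 + 231 * y ^ 5) * (1575 * (2 * y) + 525 * (4 * y ^ 3) + 25 * (6 * y ^ 5)))) = 6400 * y ^ 12 := by ring
      rw [this]; positivity) x hx
  linarith

/-! ### The same for large arguments -/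

theorem AT_inv (x : ℝ) (hx : 0 < x) : Real.arctan x = Real.pi / 2 - Real.arctan (x⁻¹) := by
  have h := Real.arctan_inv_of_pos hx
  linarith

theorem AT_lo (x N D : ℝ) (hx : 0 < x) (hD : 0 ≤ D) (h : Real.arctan (x⁻¹) * D ≤ N) :
    1570796 / 1000000 * D - N ≤ Real.arctan x * D := by
  rw [AT_inv x hx]
  have h1 : 1570796 / 1000000 ≤ Real.pi / 2 := by linarith [Real.pi_gt_d6]
  have h2 := mul_le_mul_of_nonneg_right h1 hD
  linarith

theorem AT_up (x N D : ℝ) (hx : 0 < x) (hD : 0 ≤ D) (h : N ≤ Real.arctan (x⁻¹) * D) :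
    Real.arctan x * D ≤ 15707965 / 10000000 * D - N := by
  rw [AT_inv x hx]
  have h1 : Real.pi / 2 ≤ 15707965 / 10000000 := by linarith [Real.pi_lt_d6]
  have h2 := mul_le_mul_of_nonneg_right h1 hD
  linarith

theorem bt1 (x : ℝ) (hx : 0 < x) :
    1570796 / 1000000 * x - 1 ≤ Real.arctan x * x := by
  refine AT_lo x 1 x hx hx.le ?_
  have h := at1 (x⁻¹) (inv_nonneg.2 hx.le)
  have h2 := mul_le_mul_of_nonneg_right h hx.le
  rw [inv_mul_cancel₀ hx.ne'] at h2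
  exact h2

theorem bt2 (x : ℝ) (hx : 0 < x) :
    Real.arctan x * (3 * x ^ 2 + 1) ≤ 15707965 / 10000000 * (3 * x ^ 2 + 1) - (3 * x) := by
  refine AT_up x (3 * x) (3 * x ^ 2 + 1) hx (by positivity) ?_
  have h := at2 (x⁻¹) (inv_nonneg.2 hx.le)
  have e1 : 3 * x = x ^ 2 * (3 * x⁻¹) := by
    field_simp
  have e2 : 3 * x ^ 2 + 1 = x ^ 2 * (3 + x⁻¹ ^ 2) := by
    field_simp
  have hp : 0 ≤ x ^ 2 := by positivity
  have h2 := mul_le_mul_of_nonneg_left h hp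
  have e3 : Real.arctan x⁻¹ * (3 * x ^ 2 + 1) = x ^ 2 * (Real.arctan x⁻¹ * (3 + x⁻¹ ^ 2)) := by
    rw [e2]; ring
  rw [e3]
  exact le_trans e1.le h2

theorem bt3 (x : ℝ) (hx : 0 < x) :
    1570796 / 1000000 * (15 * x ^ 3 + 9 * x) - (15 * x ^ 2 + 4) ≤ Real.arctan x * (15 * x ^ 3 + 9 * x) := by
  refine AT_lo x (15 * x ^ 2 + 4) (15 * x ^ 3 + 9 * x) hx (by positivity) ?_
  have h := at3 (x⁻¹) (inv_nonneg.2 hx.le)
  have e1 : 15 * x ^ 2 + 4 = x ^ 3 * (15 * x⁻¹ + 4 * x⁻¹ ^ 3) := by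
    field_simp
  have e2 : 15 * x ^ 3 + 9 * x = x ^ 3 * (15 + 9 * x⁻¹ ^ 2) := by
    field_simp
  have hp : 0 ≤ x ^ 3 := by positivity
  have h2 := mul_le_mul_of_nonneg_left h hp
  have e3 : Real.arctan x⁻¹ * (15 * x ^ 3 + 9 * x) = x ^ 3 * (Real.arctan x⁻¹ * (15 + 9 * x⁻¹ ^ 2)) := by
    rw [e2]; ring
  rw [e3]
  exact le_trans h2 e1.symm.le

theorem bt4 (x : ℝ) (hx : 0 < x) :
    Real.arctan x * (105 * x ^ 4 + 90 * x ^ 2 + 9) ≤ 15707965 / 10000000 * (105 * x ^ 4 + 90 * x ^ 2 + 9) - (105 * x ^ 3 + 55 * x) := by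
  refine AT_up x (105 * x ^ 3 + 55 * x) (105 * x ^ 4 + 90 * x ^ 2 + 9) hx (by positivity) ?_
  have h := at4 (x⁻¹) (inv_nonneg.2 hx.le)
  have e1 : 105 * x ^ 3 + 55 * x = x ^ 4 * (105 * x⁻¹ + 55 * x⁻¹ ^ 3) := by
    field_simp
  have e2 : 105 * x ^ 4 + 90 * x ^ 2 + 9 = x ^ 4 * (105 + 90 * x⁻¹ ^ 2 + 9 * x⁻¹ ^ 4) := by
    field_simp
  have hp : 0 ≤ x ^ 4 := by positivity
  have h2 := mul_le_mul_of_nonneg_left h hp
  have e3 : Real.arctan x⁻¹ * (105 * x ^ 4 + 90 * x ^ 2 + 9) = x ^ 4 * (Real.arctan x⁻¹ * (105 + 90 * x⁻¹ ^ 2 + 9 * x⁻¹ ^ 4)) := by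
    rw [e2]; ring
  rw [e3]
  exact le_trans e1.le h2

theorem bt5 (x : ℝ) (hx : 0 < x) :
    1570796 / 1000000 * (945 * x ^ 5 + 1050 * x ^ 3 + 225 * x) - (945 * x ^ 4 + 735 * x ^ 2 + 64) ≤ Real.arctan x * (945 * x ^ 5 + 1050 * x ^ 3 + 225 * x) := by
  refine AT_lo x (945 * x ^ 4 + 735 * x ^ 2 + 64) (945 * x ^ 5 + 1050 * x ^ 3 + 225 * x) hx (by positivity) ?_
  have h := at5 (x⁻¹) (inv_nonneg.2 hx.le)
  have e1 : 945 * x ^ 4 + 735 * x ^ 2 + 64 = x ^ 5 * (945 * x⁻¹ + 735 * x⁻¹ ^ 3 + 64 * x⁻¹ ^ 5) := by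
    field_simp
  have e2 : 945 * x ^ 5 + 1050 * x ^ 3 + 225 * x = x ^ 5 * (945 + 1050 * x⁻¹ ^ 2 + 225 * x⁻¹ ^ 4) := by
    field_simp
  have hp : 0 ≤ x ^ 5 := by positivity
  have h2 := mul_le_mul_of_nonneg_left h hp
  have e3 : Real.arctan x⁻¹ * (945 * x ^ 5 + 1050 * x ^ 3 + 225 * x) = x ^ 5 * (Real.arctan x⁻¹ * (945 + 1050 * x⁻¹ ^ 2 + 225 * x⁻¹ ^ 4)) := by
    rw [e2]; ring
  rw [e3]
  exact le_trans h2 e1.symm.le

theorem bt6 (x : ℝ) (hx : 0 < x) :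
    Real.arctan x * (1155 * x ^ 6 + 1575 * x ^ 4 + 525 * x ^ 2 + 25) ≤ 15707965 / 10000000 * (1155 * x ^ 6 + 1575 * x ^ 4 + 525 * x ^ 2 + 25) - (1155 * x ^ 5 + 1190 * x ^ 3 + 231 * x) := by
  refine AT_up x (1155 * x ^ 5 + 1190 * x ^ 3 + 231 * x) (1155 * x ^ 6 + 1575 * x ^ 4 + 525 * x ^ 2 + 25) hx (by positivity) ?_
  have h := at6 (x⁻¹) (inv_nonneg.2 hx.le)
  have e1 : 1155 * x ^ 5 + 1190 * x ^ 3 + 231 * x = x ^ 6 * (1155 * x⁻¹ + 1190 * x⁻¹ ^ 3 + 231 * x⁻¹ ^ 5) := by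
    field_simp
  have e2 : 1155 * x ^ 6 + 1575 * x ^ 4 + 525 * x ^ 2 + 25 = x ^ 6 * (1155 + 1575 * x⁻¹ ^ 2 + 525 * x⁻¹ ^ 4 + 25 * x⁻¹ ^ 6) := by
    field_simp
  have hp : 0 ≤ x ^ 6 := by positivity
  have h2 := mul_le_mul_of_nonneg_left h hp
  have e3 : Real.arctan x⁻¹ * (1155 * x ^ 6 + 1575 * x ^ 4 + 525 * x ^ 2 + 25) = x ^ 6 * (Real.arctan x⁻¹ * (1155 + 1575 * x⁻¹ ^ 2 + 525 * x⁻¹ ^ 4 + 25 * x⁻¹ ^ 6)) := by
    rw [e2]; ring
  rw [e3]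
  exact le_trans e1.le h2

end Pool.Agent.SQE
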