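import Pool.Agent.helper39.SQE.Small

/-!
# The pointwise inequality of degree 8 (for `n = 8`)
-/

set_option autoImplicit false
set_option linter.unusedVariables false

open Finset

noncomputable section

namespace Pool.Agent.SQE

theorem C8_p1 (x : ℝ) (h1 : 0 ≤ x) (h2 : x ≤ (5 / 4)) :
    0 ≤ (x ^ 2 - ((-17 / 250) + (463 / 1250) * x + (429 / 5000) * x ^ 2 + (7421 / 10000) * x ^ 3 + (-3 / 50) * x ^ 4 + (-2613 / 20000) * x ^ 5 + (1757 / 100000) * x ^ 6 + (11117 / 1000000) * x ^ 7 + (-5351 / 2500000) * x ^ 8)) := by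
  have key : ∀ u v : ℝ, 0 ≤ u → 0 ≤ v → 0 ≤ (557056 / 48828125) * v ^ 8 + (663552 / 48828125) * u * v ^ 7 + (749056 / 48828125) * u ^ 2 * v ^ 6 + (1976256 / 9765625) * u ^ 3 * v ^ 5 + (4720192 / 9765625) * u ^ 4 * v ^ 4 + (21809226 / 48828125) * u ^ 5 * v ^ 3 + (18373679 / 97656250) * u ^ 6 * v ^ 2 + (29041651 / 781250000) * u ^ 7 * v + (1150473 / 312500000) * u ^ 8 := by
    intro u v hu hv
    positivity
  have h := key (x - 0) ((5 / 4) - x) (by linarith) (by linarith)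
  have e : (x ^ 2 - ((-17 / 250) + (463 / 1250) * x + (429 / 5000) * x ^ 2 + (7421 / 10000) * x ^ 3 + (-3 / 50) * x ^ 4 + (-2613 / 20000) * x ^ 5 + (1757 / 100000) * x ^ 6 + (11117 / 1000000) * x ^ 7 + (-5351 / 2500000) * x ^ 8)) = (557056 / 48828125) * ((5 / 4) - x) ^ 8 + (663552 / 48828125) * (x - 0) * ((5 / 4) - x) ^ 7 + (749056 / 48828125) * (x - 0) ^ 2 * ((5 / 4) - x) ^ 6 + (1976256 / 9765625) * (x - 0) ^ 3 * ((5 / 4) - x) ^ 5 + (4720192 / 9765625) * (x - 0) ^ 4 * ((5 / 4) - x) ^ 4 + (21809226 / 48828125) * (x - 0) ^ 5 * ((5 / 4) - x) ^ 3 + (18373679 / 97656250) * (x - 0) ^ 6 * ((5 / 4) - x) ^ 2 + (29041651 / 781250000) * (x - 0) ^ 7 * ((5 / 4) - x) + (1150473 / 312500000) * (x - 0) ^ 8 := by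
    ring
  rw [e]
  exact h

theorem C8_p2 (x : ℝ) (h1 : (5 / 4) ≤ x) (h2 : x ≤ (7 / 2)) :
    0 ≤ (x ^ 2 - ((-17 / 250) + (463 / 1250) * x + (429 / 5000) * x ^ 2 + (7421 / 10000) * x ^ 3 + (-3 / 50) * x ^ 4 + (-2613 / 20000) * x ^ 5 + (1757 / 100000) * x ^ 6 + (11117 / 1000000) * x ^ 7 + (-5351 / 2500000) * x ^ 8)) := by
  have key : ∀ u v : ℝ, 0 ≤ u → 0 ≤ v → 0 ≤ (383491 / 11479125600) * v ^ 8 + (20252527 / 143489070000) * u * v ^ 7 + (69196579 / 71744535000) * u ^ 2 * v ^ 6 + (372933571 / 35872267500) * u ^ 3 * v ^ 5 + (153783953 / 3587226750) * u ^ 4 * v ^ 4 + (647207293 / 8968066875) * u ^ 5 * v ^ 3 + (2090440618 / 44840334375) * u ^ 6 * v ^ 2 + (1316567716 / 224201671875) * u ^ 7 * v + (258405856 / 1121008359375) * u ^ 8 := by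
    intro u v hu hv
    positivity
  have h := key (x - (5 / 4)) ((7 / 2) - x) (by linarith) (by linarith)
  have e : (x ^ 2 - ((-17 / 250) + (463 / 1250) * x + (429 / 5000) * x ^ 2 + (7421 / 10000) * x ^ 3 + (-3 / 50) * x ^ 4 + (-2613 / 20000) * x ^ 5 + (1757 / 100000) * x ^ 6 + (11117 / 1000000) * x ^ 7 + (-5351 / 2500000) * x ^ 8)) = (383491 / 11479125600) * ((7 / 2) - x) ^ 8 + (20252527 / 143489070000) * (x - (5 / 4)) * ((7 / 2) - x) ^ 7 + (69196579 / 71744535000) * (x - (5 / 4)) ^ 2 * ((7 / 2) - x) ^ 6 + (372933571 / 35872267500) * (x - (5 / 4)) ^ 3 * ((7 / 2) - x) ^ 5 + (153783953 / 3587226750) * (x - (5 / 4)) ^ 4 * ((7 / 2) - x) ^ 4 + (647207293 / 8968066875) * (x - (5 / 4)) ^ 5 * ((7 / 2) - x) ^ 3 + (2090440618 / 44840334375) * (x - (5 / 4)) ^ 6 * ((7 / 2) - x) ^ 2 + (1316567716 / 224201671875) * (x - (5 / 4)) ^ 7 * ((7 / 2) - x) + (258405856 / 1121008359375) * (x - (5 / 4))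 ^ 8 := by
    ring
  rw [e]
  exact h

theorem C8_p3 (x : ℝ) (h1 : (7 / 2) ≤ x) (h2 : x ≤ (31 / 8)) :
    0 ≤ (x ^ 2 - ((-17 / 250) + (463 / 1250) * x + (429 / 5000) * x ^ 2 + (7421 / 10000) * x ^ 3 + (-3 / 50) * x ^ 4 + (-2613 / 20000) * x ^ 5 + (1757 / 100000) * x ^ 6 + (11117 / 1000000) * x ^ 7 + (-5351 / 2500000) * x ^ 8)) := by
  have key : ∀ u v : ℝ, 0 ≤ u → 0 ≤ v → 0 ≤ (66151899136 / 170859375) * v ^ 8 + (336549945856 / 170859375) * u * v ^ 7 + (66555859328 / 18984375) * u ^ 2 * v ^ 6 + (360036172448 / 170859375) * u ^ 3 * v ^ 5 + (1251041944 / 34171875) * u ^ 4 * v ^ 4 + (112194886754 / 56953125) * u ^ 5 * v ^ 3 + (1606757705969 / 341718750) * u ^ 6 * v ^ 2 + (4713983348807 / 1366875000) * u ^ 7 * v + (1574723915539 / 1822500000) * u ^ 8 := by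
    intro u v hu hv
    positivity
  have h := key (x - (7 / 2)) ((31 / 8) - x) (by linarith) (by linarith)
  have e : (x ^ 2 - ((-17 / 250) + (463 / 1250) * x + (429 / 5000) * x ^ 2 + (7421 / 10000) * x ^ 3 + (-3 / 50) * x ^ 4 + (-2613 / 20000) * x ^ 5 + (1757 / 100000) * x ^ 6 + (11117 / 1000000) * x ^ 7 + (-5351 / 2500000) * x ^ 8)) = (66151899136 / 170859375) * ((31 / 8) - x) ^ 8 + (336549945856 / 170859375) * (x - (7 / 2)) * ((31 / 8) - x) ^ 7 + (66555859328 / 18984375) * (x - (7 / 2)) ^ 2 * ((31 / 8) - x) ^ 6 + (360036172448 / 170859375) * (x - (7 / 2)) ^ 3 * ((31 / 8) - x) ^ 5 + (1251041944 / 34171875) * (x - (7 / 2)) ^ 4 * ((31 / 8) - x) ^ 4 + (112194886754 / 56953125) * (x - (7 / 2)) ^ 5 * ((31 / 8) - x) ^ 3 + (1606757705969 / 341718750) * (x - (7 / 2)) ^ 6 * ((31 / 8) - x) ^ 2 + (4713983348807 / 1366875000) * (x - (7 / 2)) ^ 7 * ((31 / 8) - x) + (1574723915539 / 1822500000)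 * (x - (7 / 2)) ^ 8 := by
    ring
  rw [e]
  exact h

theorem C8_p4 (x : ℝ) (h1 : (31 / 8) ≤ x) (h2 : x ≤ 4) :
    0 ≤ (x ^ 2 - ((-17 / 250) + (463 / 1250) * x + (429 / 5000) * x ^ 2 + (7421 / 10000) * x ^ 3 + (-3 / 50) * x ^ 4 + (-2613 / 20000) * x ^ 5 + (1757 / 100000) * x ^ 6 + (11117 / 1000000) * x ^ 7 + (-5351 / 2500000) * x ^ 8)) := by
  have key : ∀ u v : ℝ, 0 ≤ u → 0 ≤ v → 0 ≤ (14172515239851 / 2500000) * v ^ 8 + (33079390624129 / 625000) * u * v ^ 7 + (16814280528266 / 78125) * u ^ 2 * v ^ 6 + (38896049198064 / 78125) * u ^ 3 * v ^ 5 + (11197824645632 / 15625) * u ^ 4 * v ^ 4 + (51361306822656 / 78125) * u ^ 5 * v ^ 3 + (29327917613056 / 78125) * u ^ 6 * v ^ 2 + (9532506898432 / 78125) * u ^ 7 * v + (1350574276608 / 78125) * u ^ 8 := by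
    intro u v hu hv
    positivity
  have h := key (x - (31 / 8)) (4 - x) (by linarith) (by linarith)
  have e : (x ^ 2 - ((-17 / 250) + (463 / 1250) * x + (429 / 5000) * x ^ 2 + (7421 / 10000) * x ^ 3 + (-3 / 50) * x ^ 4 + (-2613 / 20000) * x ^ 5 + (1757 / 100000) * x ^ 6 + (11117 / 1000000) * x ^ 7 + (-5351 / 2500000) * x ^ 8)) = (14172515239851 / 2500000) * (4 - x) ^ 8 + (33079390624129 / 625000) * (x - (31 / 8)) * (4 - x) ^ 7 + (16814280528266 / 78125) * (x - (31 / 8)) ^ 2 * (4 - x) ^ 6 + (38896049198064 / 78125) * (x - (31 / 8)) ^ 3 * (4 - x) ^ 5 + (11197824645632 / 15625) * (x - (31 / 8)) ^ 4 * (4 - x) ^ 4 + (51361306822656 / 78125) * (x - (31 / 8)) ^ 5 * (4 - x) ^ 3 + (29327917613056 / 78125) * (x - (31 / 8)) ^ 6 * (4 - x) ^ 2 + (9532506898432 / 78125) * (x - (31 / 8)) ^ 7 * (4 - x) + (1350574276608 / 78125) * (x - (31 / 8)) ^ 8 := by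
    ring
  rw [e]
  exact h

theorem C8_m1 (x : ℝ) (h1 : 0 ≤ x) (h2 : x ≤ (5 / 4)) :
    0 ≤ (-(x ^ 2) - ((-17 / 250) + (-463 / 1250) * x + (429 / 5000) * x ^ 2 + (-7421 / 10000) * x ^ 3 + (-3 / 50) * x ^ 4 + (2613 / 20000) * x ^ 5 + (1757 / 100000) * x ^ 6 + (-11117 / 1000000) * x ^ 7 + (-5351 / 2500000) * x ^ 8)) := by
  have key : ∀ u v : ℝ, 0 ≤ u → 0 ≤ v → 0 ≤ (557056 / 48828125) * v ^ 8 + (8249344 / 48828125) * u * v ^ 7 + (1129984 / 1953125) * u ^ 2 * v ^ 6 + (39330112 / 48828125) * u ^ 3 * v ^ 5 + (4767936 / 9765625) * u ^ 4 * v ^ 4 + (6251446 / 48828125) * u ^ 5 * v ^ 3 + (4725943 / 97656250) * u ^ 6 * v ^ 2 + (4232521 / 156250000) * u ^ 7 * v + (7960609 / 1562500000) * u ^ 8 := by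
    intro u v hu hv
    positivity
  have h := key (x - 0) ((5 / 4) - x) (by linarith) (by linarith)
  have e : (-(x ^ 2) - ((-17 / 250) + (-463 / 1250) * x + (429 / 5000) * x ^ 2 + (-7421 / 10000) * x ^ 3 + (-3 / 50) * x ^ 4 + (2613 / 20000) * x ^ 5 + (1757 / 100000) * x ^ 6 + (-11117 / 1000000) * x ^ 7 + (-5351 / 2500000) * x ^ 8)) = (557056 / 48828125) * ((5 / 4) - x) ^ 8 + (8249344 / 48828125) * (x - 0) * ((5 / 4) - x) ^ 7 + (1129984 / 1953125) * (x - 0) ^ 2 * ((5 / 4) - x) ^ 6 + (39330112 / 48828125) * (x - 0) ^ 3 * ((5 / 4) - x) ^ 5 + (4767936 / 9765625) * (x - 0) ^ 4 * ((5 / 4) - x) ^ 4 + (6251446 / 48828125) * (x - 0) ^ 5 * ((5 / 4) - x) ^ 3 + (4725943 / 97656250) * (x - 0) ^ 6 * ((5 / 4) - x) ^ 2 + (4232521 / 156250000) * (x - 0) ^ 7 * ((5 / 4) - x) + (7960609 / 1562500000) * (x - 0) ^ 8 := by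
    ring
  rw [e]
  exact h

theorem C8_m2 (x : ℝ) (h1 : (5 / 4) ≤ x) (h2 : x ≤ 2) :
    0 ≤ (-(x ^ 2) - ((-17 / 250) + (-463 / 1250) * x + (429 / 5000) * x ^ 2 + (-7421 / 10000) * x ^ 3 + (-3 / 50) * x ^ 4 + (2613 / 20000) * x ^ 5 + (1757 / 100000) * x ^ 6 + (-11117 / 1000000) * x ^ 7 + (-5351 / 2500000) * x ^ 8)) := by
  have key : ∀ u v : ℝ, 0 ≤ u → 0 ≤ v → 0 ≤ (7960609 / 26244000) * v ^ 8 + (191251673 / 65610000) * u * v ^ 7 + (48970699 / 4100625) * u ^ 2 * v ^ 6 + (106069754 / 4100625) * u ^ 3 * v ^ 5 + (25305968 / 820125) * u ^ 4 * v ^ 4 + (79398464 / 4100625) * u ^ 5 * v ^ 3 + (113036288 / 20503125) * u ^ 6 * v ^ 2 + (76746752 / 102515625) * u ^ 7 * v + (143556608 / 512578125) * u ^ 8 := by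
    intro u v hu hv
    positivity
  have h := key (x - (5 / 4)) (2 - x) (by linarith) (by linarith)
  have e : (-(x ^ 2) - ((-17 / 250) + (-463 / 1250) * x + (429 / 5000) * x ^ 2 + (-7421 / 10000) * x ^ 3 + (-3 / 50) * x ^ 4 + (2613 / 20000) * x ^ 5 + (1757 / 100000) * x ^ 6 + (-11117 / 1000000) * x ^ 7 + (-5351 / 2500000) * x ^ 8)) = (7960609 / 26244000) * (2 - x) ^ 8 + (191251673 / 65610000) * (x - (5 / 4)) * (2 - x) ^ 7 + (48970699 / 4100625) * (x - (5 / 4)) ^ 2 * (2 - x) ^ 6 + (106069754 / 4100625) * (x - (5 / 4)) ^ 3 * (2 - x) ^ 5 + (25305968 / 820125) * (x - (5 / 4)) ^ 4 * (2 - x) ^ 4 + (79398464 / 4100625) * (x - (5 / 4)) ^ 5 * (2 - x) ^ 3 + (113036288 / 20503125) * (x - (5 / 4)) ^ 6 * (2 - x) ^ 2 + (76746752 / 102515625) * (x - (5 / 4)) ^ 7 * (2 - x) + (143556608 / 512578125) * (x - (5 / 4)) ^ 8 := by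
    ring
  rw [e]
  exact h

theorem C8_m3 (x : ℝ) (h1 : 2 ≤ x) (h2 : x ≤ 4) :
    0 ≤ (-(x ^ 2) - ((-17 / 250) + (-463 / 1250) * x + (429 / 5000) * x ^ 2 + (-7421 / 10000) * x ^ 3 + (-3 / 50) * x ^ 4 + (2613 / 20000) * x ^ 5 + (1757 / 100000) * x ^ 6 + (-11117 / 1000000) * x ^ 7 + (-5351 / 2500000) * x ^ 8)) := by
  have key : ∀ u v : ℝ, 0 ≤ u → 0 ≤ v → 0 ≤ (4381 / 40000000) * v ^ 8 + (97281 / 40000000) * u * v ^ 7 + (1460937 / 40000000) * u ^ 2 * v ^ 6 + (5512789 / 20000000) * u ^ 3 * v ^ 5 + (4433527 / 4000000) * u ^ 4 * v ^ 4 + (100900727 / 40000000) * u ^ 5 * v ^ 3 + (130730447 / 40000000) * u ^ 6 * v ^ 2 + (44999437 / 20000000) * u ^ 7 * v + (25577041 / 40000000) * u ^ 8 := by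
    intro u v hu hv
    positivity
  have h := key (x - 2) (4 - x) (by linarith) (by linarith)
  have e : (-(x ^ 2) - ((-17 / 250) + (-463 / 1250) * x + (429 / 5000) * x ^ 2 + (-7421 / 10000) * x ^ 3 + (-3 / 50) * x ^ 4 + (2613 / 20000) * x ^ 5 + (1757 / 100000) * x ^ 6 + (-11117 / 1000000) * x ^ 7 + (-5351 / 2500000) * x ^ 8)) = (4381 / 40000000) * (4 - x) ^ 8 + (97281 / 40000000) * (x - 2) * (4 - x) ^ 7 + (1460937 / 40000000) * (x - 2) ^ 2 * (4 - x) ^ 6 + (5512789 / 20000000) * (x - 2) ^ 3 * (4 - x) ^ 5 + (4433527 / 4000000) * (x - 2) ^ 4 * (4 - x) ^ 4 + (100900727 / 40000000) * (x - 2) ^ 5 * (4 - x) ^ 3 + (130730447 / 40000000) * (x - 2) ^ 6 * (4 - x) ^ 2 + (44999437 / 20000000) * (x - 2) ^ 7 * (4 - x) + (25577041 / 40000000) * (x - 2) ^ 8 := by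
    ring
  rw [e]
  exact h

theorem C8 (x : ℝ) (hx : |x| ≤ 4) :
    (-17 / 250) + (463 / 1250) * x + (429 / 5000) * x ^ 2 + (7421 / 10000) * x ^ 3 + (-3 / 50) * x ^ 4 + (-2613 / 20000) * x ^ 5 + (1757 / 100000) * x ^ 6 + (11117 / 1000000) * x ^ 7 + (-5351 / 2500000) * x ^ 8 ≤ x * |x| := by
  rcases le_total 0 x with h0 | h0
  · rw [abs_of_nonneg h0] at hx ⊢
    rcases le_total x (5 / 4) with g1 | h1
    · have := C8_p1 x (by linarith) (by linarith)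
      linarith
    rcases le_total x (7 / 2) with g2 | h2
    · have := C8_p2 x (by linarith) (by linarith)
      linarith
    rcases le_total x (31 / 8) with g3 | h3
    · have := C8_p3 x (by linarith) (by linarith)
      linarith
    have := C8_p4 x (by linarith) (by linarith)
    linarith
  · rw [abs_of_nonpos h0] at hx ⊢
    obtain ⟨y, rfl⟩ : ∃ y : ℝ, x = -y := ⟨-x, by ring⟩
    rw [neg_neg] at hx
    have h0' : 0 ≤ y := by linarith
    rcases le_total y (5 / 4) with g1 | h1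
    · have := C8_m1 y (by linarith) (by linarith)
      linarith
    rcases le_total y 2 with g2 | h2
    · have := C8_m2 y (by linarith) (by linarith)
      linarith
    have := C8_m3 y (by linarith) (by linarith)
    linarith

/-- **Order 8.** The moments enter through one linear combination. -/
theorem small8 {ι : Type*} [Fintype ι] (hc : Fintype.card ι = 8) (l : ι → ℝ) (hL : ∀ i, |l i| ≤ 4)
    (m : ℕ → ℝ) (hm : ∀ k, 1 ≤ k → k ≤ 8 → ∑ i, l i ^ k = m k)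
    (h : 60000000 ≤ -5440000 + 3704000 * m 1 + 858000 * m 2 + 7421000 * m 3 + -600000 * m 4 + -1306500 * m 5 + 175700 * m 6 + 111170 * m 7 + -21404 * m 8) :
    6 ≤ ∑ i, l i * |l i| := by
  have hp := Finset.sum_le_sum (fun i (_ : i ∈ Finset.univ) => C8 (l i) (hL i))
  refine le_trans ?_ hp
  simp only [Finset.sum_add_distrib, ← Finset.mul_sum, Finset.sum_const, Finset.card_univ, hc, nsmul_eq_mul]
  have h1 := hm 1 (by norm_num) (by norm_num)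
  simp only [pow_one] at h1
  rw [h1, hm 2 (by norm_num) (by norm_num), hm 3 (by norm_num) (by norm_num), hm 4 (by norm_num) (by norm_num),
    hm 5 (by norm_num) (by norm_num), hm 6 (by norm_num) (by norm_num), hm 7 (by norm_num) (by norm_num),
    hm 8 (by norm_num) (by norm_num)]
  push_cast
  linarith

end Pool.Agent.SQE
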