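import Pool.Agent.helper39.SQE.CT

/-!
# The energy bound for `9 ≤ n ≤ 180` from four moments and two phases
-/

set_option autoImplicit false

open Finset

noncomputable section

namespace Pool.Agent.SQE

variable {ι : Type*} [Fintype ι]

/-- The sum of a pointwise inequality. -/
theorem SM_sum (n : ℕ) (hc : Fintype.card ι = n) (l : ι → ℝ) (a b c e f w t : ℝ) (hf : f ≤ 0) (hw : 0 ≤ w)
    (h1 : ∑ i, l i = 0) (h2 : ∑ i, l i ^ 2 = 4 * n - 6) (h3 : ∑ i, l i ^ 3 = 6 * (n - 2))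
    (h4 : ∑ i, l i ^ 4 ≤ 2 * n ^ 2 + 18 * n - 54) (ha : ∑ i, Real.arctan (l i / t) ≤ 0)
    (hp : ∀ i, a + b * l i + c * l i ^ 2 + e * l i ^ 3 + f * l i ^ 4 - w * Real.arctan (l i / t) ≤ l i * |l i|) :
    a * n + c * (4 * n - 6) + e * (6 * (n - 2)) + f * (2 * n ^ 2 + 18 * n - 54) ≤ ∑ i, l i * |l i| := by
  have h := Finset.sum_le_sum (fun i (_ : i ∈ Finset.univ) => hp i)
  have e1 : ∑ i, (a + b * l i + c * l i ^ 2 + e * l i ^ 3 + f * l i ^ 4 - w * Real.arctan (l i / t)) =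
      a * n + b * (∑ i, l i) + c * (∑ i, l i ^ 2) + e * (∑ i, l i ^ 3) + f * (∑ i, l i ^ 4) -
        w * (∑ i, Real.arctan (l i / t)) := by
    rw [Finset.sum_sub_distrib, Finset.sum_add_distrib, Finset.sum_add_distrib, Finset.sum_add_distrib,
      Finset.sum_add_distrib, Finset.sum_const, Finset.card_univ, hc, nsmul_eq_mul, Finset.mul_sum, Finset.mul_sum,
      Finset.mul_sum, Finset.mul_sum, Finset.mul_sum]
    ring
  rw [e1, h1, h2, h3] at h
  have g1 := mul_le_mul_of_nonpos_left h4 hf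
  have g2 := mul_nonpos_of_nonneg_of_nonpos hw ha
  linarith

theorem SM_L (n m : ℕ) (L x : ℝ) (hn : n ≤ m) (hL : 3 / 2 ≤ L) (hm : (m : ℝ) - 7 / 4 ≤ (L - 3 / 2) ^ 2)
    (hx : |x| ≤ 3 / 2 + Real.sqrt (n - 7 / 4)) : |x| ≤ L := by
  have h0 : (n : ℝ) ≤ m := by exact_mod_cast hn
  have h1 : Real.sqrt (n - 7 / 4) ≤ L - 3 / 2 := by
    rw [Real.sqrt_le_left (by linarith)]
    linarith
  linarith

/-- **Small orders.** -/
theorem small (n : ℕ) (hn1 : 9 ≤ n) (hn2 : n ≤ 180) (hc : Fintype.card ι = n) (l : ι → ℝ)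
    (h1 : ∑ i, l i = 0) (h2 : ∑ i, l i ^ 2 = 4 * n - 6) (h3 : ∑ i, l i ^ 3 = 6 * (n - 2))
    (h4 : ∑ i, l i ^ 4 ≤ 2 * n ^ 2 + 18 * n - 54) (hL : ∀ i, |l i| ≤ 3 / 2 + Real.sqrt (n - 7 / 4))
    (ha1 : ∑ i, Real.arctan (l i / 1) ≤ 0) (ha2 : ∑ i, Real.arctan (l i / 2) ≤ 0) : 6 ≤ ∑ i, l i * |l i| := by
  have hn1' : (9 : ℝ) ≤ n := by exact_mod_cast hn1
  rcases (Nat.lt_or_ge 14 n).symm with hA | hA
  · have hA' : (n : ℝ) ≤ 14 := by exact_mod_cast hA
    have h := SM_sum n hc l (-26847 / 100000) (83559 / 100000) (3989 / 25000) (14311 / 50000) (-777 / 25000) 0 1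
      (by norm_num) le_rfl h1 h2 h3 h4 ha1 (fun i => by
      have := C1 (l i) (SM_L n 14 5 _ hA (by norm_num) (by norm_num) (hL i))
      rw [zero_mul, sub_zero]
      exact this)
    refine le_trans ?_ h
    nlinarith
  · rcases (Nat.lt_or_ge 60 n).symm with hB | hB
    · have hA' : (15 : ℝ) ≤ n := by exact_mod_cast hA
      have hB' : (n : ℝ) ≤ 60 := by exact_mod_cast hB
      have h := SM_sum n hc l (-47 / 625) (31693 / 10000) (41 / 2000) (11173 / 100000) (-4031 / 1000000) (7313 / 2500) 1 (by norm_num) (by norm_num) h1 h2 h3 h4 ha1 (fun i => by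
        have := C2 (l i) (SM_L n 60 (457 / 50) _ hB (by norm_num) (by norm_num) (hL i))
        rw [div_one]
        exact this)
      refine le_trans ?_ h
      nlinarith
    · have hA' : (61 : ℝ) ≤ n := by exact_mod_cast hB
      have hB' : (n : ℝ) ≤ 180 := by exact_mod_cast hn2
      have h := SM_sum n hc l (-791 / 10000) (8551 / 1250) (-713 / 50000) (5913 / 125000) (-923 / 3125000) (2563 / 200) 2 (by norm_num) (by norm_num) h1 h2 h3 h4 ha2 (fun i => by
        exact C3 (l i) (SM_L n 180 (3713 / 250) _ hn2 (by norm_num) (by norm_num) (hL i)))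
      refine le_trans ?_ h
      nlinarith

end Pool.Agent.SQE
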