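import Pool.Agent.helper39.SQE.AT

/-!
# The pointwise inequalities (certificates)

Quartic lower bounds of `x |x|`, with an arctangent. Each piece is an explicit positive combination of
`(x - p)^k (q - x)^(d - k)`.
-/

set_option autoImplicit false
set_option linter.unusedVariables false

noncomputable section

namespace Pool.Agent.SQE

theorem CT_lo {V A D N w : ℝ} (hD : 0 < D) (hw : 0 ≤ w) (hA : N ≤ A * D) (hP : 0 ≤ V * D + w * N) :
    0 ≤ V + w * A := by
  by_contra hc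
  push Not at hc
  have h1 := mul_neg_of_neg_of_pos hc hD
  have h2 := mul_le_mul_of_nonneg_left hA hw
  nlinarith

theorem CT_up {V A D N w : ℝ} (hD : 0 < D) (hw : 0 ≤ w) (hA : A * D ≤ N) (hP : 0 ≤ V * D - w * N) :
    0 ≤ V - w * A := by
  by_contra hc
  push Not at hc
  have h1 := mul_neg_of_neg_of_pos hc hD
  have h2 := mul_le_mul_of_nonneg_left hA hw
  nlinarith

theorem C1_p1 (x : ℝ) (h1 : 0 ≤ x) (h2 : x ≤ (3 / 4)) :
    0 ≤ (x ^ 2 - ((-26847 / 100000) + (83559 / 100000) * x + (3989 / 25000) * x ^ 2 + (14311 / 50000) * x ^ 3 + (-777 / 25000) * x ^ 4)) := by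
  have key : ∀ u v : ℝ, 0 ≤ u → 0 ≤ v → 0 ≤ (23864 / 28125) * v ^ 4 + (106 / 75) * u * v ^ 3 + (18088 / 28125) * u ^ 2 * v ^ 2 + (1319 / 22500) * u ^ 3 * v + (2567 / 225000) * u ^ 4 := by
    intro u v hu hv
    positivity
  have h := key (x - 0) ((3 / 4) - x) (by linarith) (by linarith)
  have e : (x ^ 2 - ((-26847 / 100000) + (83559 / 100000) * x + (3989 / 25000) * x ^ 2 + (14311 / 50000) * x ^ 3 + (-777 / 25000) * x ^ 4)) = (23864 / 28125) * ((3 / 4) - x) ^ 4 + (106 / 75) * (x - 0) * ((3 / 4) - x) ^ 3 + (18088 / 28125) * (x - 0) ^ 2 * ((3 / 4) - x) ^ 2 + (1319 / 22500) * (x - 0) ^ 3 * ((3 / 4) - x) + (2567 / 225000) * (x - 0) ^ 4 := by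
    ring
  rw [e]
  exact h

theorem C1_p2 (x : ℝ) (h1 : (3 / 4) ≤ x) (h2 : x ≤ (13 / 4)) :
    0 ≤ (x ^ 2 - ((-26847 / 100000) + (83559 / 100000) * x + (3989 / 25000) * x ^ 2 + (14311 / 50000) * x ^ 3 + (-777 / 25000) * x ^ 4)) := by
  have key : ∀ u v : ℝ, 0 ≤ u → 0 ≤ v → 0 ≤ (23103 / 250000000) * v ^ 4 + (297 / 15625000) * u * v ^ 3 + (5964619 / 125000000) * u ^ 2 * v ^ 2 + (579829 / 31250000) * u ^ 3 * v + (461043 / 250000000) * u ^ 4 := by
    intro u v hu hv
    positivity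
  have h := key (x - (3 / 4)) ((13 / 4) - x) (by linarith) (by linarith)
  have e : (x ^ 2 - ((-26847 / 100000) + (83559 / 100000) * x + (3989 / 25000) * x ^ 2 + (14311 / 50000) * x ^ 3 + (-777 / 25000) * x ^ 4)) = (23103 / 250000000) * ((13 / 4) - x) ^ 4 + (297 / 15625000) * (x - (3 / 4)) * ((13 / 4) - x) ^ 3 + (5964619 / 125000000) * (x - (3 / 4)) ^ 2 * ((13 / 4) - x) ^ 2 + (579829 / 31250000) * (x - (3 / 4)) ^ 3 * ((13 / 4) - x) + (461043 / 250000000) * (x - (3 / 4)) ^ 4 := by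
    ring
  rw [e]
  exact h

theorem C1_p3 (x : ℝ) (h1 : (13 / 4) ≤ x) (h2 : x ≤ (31 / 8)) :
    0 ≤ (x ^ 2 - ((-26847 / 100000) + (83559 / 100000) * x + (3989 / 25000) * x ^ 2 + (14311 / 50000) * x ^ 3 + (-777 / 25000) * x ^ 4)) := by
  have key : ∀ u v : ℝ, 0 ≤ u → 0 ≤ v → 0 ≤ (922086 / 1953125) * v ^ 4 + (2291114 / 1953125) * u * v ^ 3 + (1438276 / 1953125) * u ^ 2 * v ^ 2 + (119483 / 3906250) * u ^ 3 * v + (409573 / 15625000) * u ^ 4 := by
    intro u v hu hv
    positivity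
  have h := key (x - (13 / 4)) ((31 / 8) - x) (by linarith) (by linarith)
  have e : (x ^ 2 - ((-26847 / 100000) + (83559 / 100000) * x + (3989 / 25000) * x ^ 2 + (14311 / 50000) * x ^ 3 + (-777 / 25000) * x ^ 4)) = (922086 / 1953125) * ((31 / 8) - x) ^ 4 + (2291114 / 1953125) * (x - (13 / 4)) * ((31 / 8) - x) ^ 3 + (1438276 / 1953125) * (x - (13 / 4)) ^ 2 * ((31 / 8) - x) ^ 2 + (119483 / 3906250) * (x - (13 / 4)) ^ 3 * ((31 / 8) - x) + (409573 / 15625000) * (x - (13 / 4)) ^ 4 := by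
    ring
  rw [e]
  exact h

theorem C1_p4 (x : ℝ) (h1 : (31 / 8) ≤ x) (h2 : x ≤ 5) :
    0 ≤ (x ^ 2 - ((-26847 / 100000) + (83559 / 100000) * x + (3989 / 25000) * x ^ 2 + (14311 / 50000) * x ^ 3 + (-777 / 25000) * x ^ 4)) := by
  have key : ∀ u v : ℝ, 0 ≤ u → 0 ≤ v → 0 ≤ (409573 / 164025000) * v ^ 4 + (186347 / 8201250) * u * v ^ 3 + (2055004 / 6834375) * u ^ 2 * v ^ 2 + (2940112 / 4100625) * u ^ 3 * v + (9587456 / 20503125) * u ^ 4 := by
    intro u v hu hv
    positivity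
  have h := key (x - (31 / 8)) (5 - x) (by linarith) (by linarith)
  have e : (x ^ 2 - ((-26847 / 100000) + (83559 / 100000) * x + (3989 / 25000) * x ^ 2 + (14311 / 50000) * x ^ 3 + (-777 / 25000) * x ^ 4)) = (409573 / 164025000) * (5 - x) ^ 4 + (186347 / 8201250) * (x - (31 / 8)) * (5 - x) ^ 3 + (2055004 / 6834375) * (x - (31 / 8)) ^ 2 * (5 - x) ^ 2 + (2940112 / 4100625) * (x - (31 / 8)) ^ 3 * (5 - x) + (9587456 / 20503125) * (x - (31 / 8)) ^ 4 := by
    ring
  rw [e]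
  exact h

theorem C1_m1 (x : ℝ) (h1 : 0 ≤ x) (h2 : x ≤ (3 / 2)) :
    0 ≤ (-(x ^ 2) - ((-26847 / 100000) - (83559 / 100000) * x + (3989 / 25000) * x ^ 2 - (14311 / 50000) * x ^ 3 + (-777 / 25000) * x ^ 4)) := by
  have key : ∀ u v : ℝ, 0 ≤ u → 0 ≤ v → 0 ≤ (2983 / 56250) * v ^ 4 + (17239 / 37500) * u * v ^ 3 + (20459 / 37500) * u ^ 2 * v ^ 2 + (25867 / 225000) * u ^ 3 * v + (67 / 9375) * u ^ 4 := by
    intro u v hu hv
    positivity
  have h := key (x - 0) ((3 / 2) - x) (by linarith) (by linarith)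
  have e : (-(x ^ 2) - ((-26847 / 100000) - (83559 / 100000) * x + (3989 / 25000) * x ^ 2 - (14311 / 50000) * x ^ 3 + (-777 / 25000) * x ^ 4)) = (2983 / 56250) * ((3 / 2) - x) ^ 4 + (17239 / 37500) * (x - 0) * ((3 / 2) - x) ^ 3 + (20459 / 37500) * (x - 0) ^ 2 * ((3 / 2) - x) ^ 2 + (25867 / 225000) * (x - 0) ^ 3 * ((3 / 2) - x) + (67 / 9375) * (x - 0) ^ 4 := by
    ring
  rw [e]
  exact h

theorem C1_m2 (x : ℝ) (h1 : (3 / 2) ≤ x) (h2 : x ≤ (225 / 128)) :
    0 ≤ (-(x ^ 2) - ((-26847 / 100000) - (83559 / 100000) * x + (3989 / 25000) * x ^ 2 - (14311 / 50000) * x ^ 3 + (-777 / 25000) * x ^ 4)) := by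
  have key : ∀ u v : ℝ, 0 ≤ u → 0 ≤ v → 0 ≤ (1124073472 / 137259375) * v ^ 4 + (6483574784 / 411778125) * u * v ^ 3 + (870811136 / 137259375) * u ^ 2 * v ^ 2 + (6006856 / 137259375) * u ^ 3 * v + (4237916737 / 3294225000) * u ^ 4 := by
    intro u v hu hv
    positivity
  have h := key (x - (3 / 2)) ((225 / 128) - x) (by linarith) (by linarith)
  have e : (-(x ^ 2) - ((-26847 / 100000) - (83559 / 100000) * x + (3989 / 25000) * x ^ 2 - (14311 / 50000) * x ^ 3 + (-777 / 25000) * x ^ 4)) = (1124073472 / 137259375) * ((225 / 128) - x) ^ 4 + (6483574784 / 411778125) * (x - (3 / 2)) * ((225 / 128) - x) ^ 3 + (870811136 / 137259375) * (x - (3 / 2)) ^ 2 * ((225 / 128) - x) ^ 2 + (6006856 / 137259375) * (x - (3 / 2)) ^ 3 * ((225 / 128) - x) + (4237916737 / 3294225000) * (x - (3 / 2)) ^ 4 := by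
    ring
  rw [e]
  exact h

theorem C1_m3 (x : ℝ) (h1 : (225 / 128) ≤ x) (h2 : x ≤ 5) :
    0 ≤ (-(x ^ 2) - ((-26847 / 100000) - (83559 / 100000) * x + (3989 / 25000) * x ^ 2 - (14311 / 50000) * x ^ 3 + (-777 / 25000) * x ^ 4)) := by
  have key : ∀ u v : ℝ, 0 ≤ u → 0 ≤ v → 0 ≤ (38141250633 / 741536265625000) * v ^ 4 + (256858585464 / 92692033203125) * u * v ^ 3 + (8907440679936 / 92692033203125) * u ^ 2 * v ^ 2 + (31493886377984 / 92692033203125) * u ^ 3 * v + (25719405019136 / 92692033203125) * u ^ 4 := by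
    intro u v hu hv
    positivity
  have h := key (x - (225 / 128)) (5 - x) (by linarith) (by linarith)
  have e : (-(x ^ 2) - ((-26847 / 100000) - (83559 / 100000) * x + (3989 / 25000) * x ^ 2 - (14311 / 50000) * x ^ 3 + (-777 / 25000) * x ^ 4)) = (38141250633 / 741536265625000) * (5 - x) ^ 4 + (256858585464 / 92692033203125) * (x - (225 / 128)) * (5 - x) ^ 3 + (8907440679936 / 92692033203125) * (x - (225 / 128)) ^ 2 * (5 - x) ^ 2 + (31493886377984 / 92692033203125) * (x - (225 / 128)) ^ 3 * (5 - x) + (25719405019136 / 92692033203125) * (x - (225 / 128)) ^ 4 := by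
    ring
  rw [e]
  exact h

theorem C2_p1 (x : ℝ) (h1 : 0 ≤ x) (h2 : x ≤ 1) :
    0 ≤ (x ^ 2 - ((-47 / 625) + (31693 / 10000) * x + (41 / 2000) * x ^ 2 + (11173 / 100000) * x ^ 3 + (-4031 / 1000000) * x ^ 4)) + (7313 / 2500) * Real.arctan x := by
  have hA := at4 x (by linarith)
  have key : ∀ u v : ℝ, 0 ≤ u → 0 ≤ v → 0 ≤ (987 / 125) * v ^ 8 + (3003 / 80) * u * v ^ 7 + (15129 / 100) * u ^ 2 * v ^ 6 + (8510917 / 20000) * u ^ 3 * v ^ 5 + (141745361 / 200000) * u ^ 4 * v ^ 4 + (34751641 / 50000) * u ^ 5 * v ^ 3 + (4940299 / 12500) * u ^ 6 * v ^ 2 + (1495841 / 12500) * u ^ 7 * v + (3670751 / 250000) * u ^ 8 := by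
    intro u v hu hv
    positivity
  have h := key (x - 0) (1 - x) (by linarith) (by linarith)
  have hx : 0 ≤ x := by linarith
  have hx0 : 0 ≤ x := by linarith
  refine CT_lo (D := 105 + 90 * x ^ 2 + 9 * x ^ 4) (N := 105 * x + 55 * x ^ 3) (by positivity) (by norm_num) hA ?_
  have e : (x ^ 2 - ((-47 / 625) + (31693 / 10000) * x + (41 / 2000) * x ^ 2 + (11173 / 100000) * x ^ 3 + (-4031 / 1000000) * x ^ 4)) * (105 + 90 * x ^ 2 + 9 * x ^ 4) + (7313 / 2500) * (105 * x + 55 * x ^ 3) = (987 / 125) * (1 - x) ^ 8 + (3003 / 80) * (x - 0) * (1 - x) ^ 7 + (15129 / 100) * (x - 0) ^ 2 * (1 - x) ^ 6 + (8510917 / 20000) * (x - 0) ^ 3 * (1 - x) ^ 5 + (141745361 / 200000) * (x - 0) ^ 4 * (1 - x) ^ 4 + (34751641 / 50000) * (x - 0) ^ 5 * (1 - x) ^ 3 + (4940299 / 12500) * (x - 0) ^ 6 * (1 - x) ^ 2 + (1495841 / 12500) * (x - 0) ^ 7 * (1 - x) + (3670751 / 250000) * (x - 0) ^ 8 := by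
    ring
  rw [e]
  exact h

theorem C2_p2 (x : ℝ) (h1 : 1 ≤ x) (h2 : x ≤ 5) :
    0 ≤ (x ^ 2 - ((-47 / 625) + (31693 / 10000) * x + (41 / 2000) * x ^ 2 + (11173 / 100000) * x ^ 3 + (-4031 / 1000000) * x ^ 4)) + (7313 / 2500) * Real.arctan x := by
  have hA := bt3 x (by linarith)
  have key : ∀ u v : ℝ, 0 ≤ u → 0 ≤ v → 0 ≤ (53259493 / 640000000000) * v ^ 7 + (944576263 / 640000000000) * u * v ^ 6 + (453157353 / 128000000000) * u ^ 2 * v ^ 5 + (90710371 / 128000000000) * u ^ 3 * v ^ 4 + (677691311 / 25600000000) * u ^ 4 * v ^ 3 + (295426970253 / 640000000000) * u ^ 5 * v ^ 2 + (335375806903 / 640000000000) * u ^ 6 * v + (19301927513 / 128000000000) * u ^ 7 := by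
    intro u v hu hv
    positivity
  have h := key (x - 1) (5 - x) (by linarith) (by linarith)
  have hx : 0 ≤ x := by linarith
  have hx0 : 0 < x := by linarith
  refine CT_lo (D := 15 * x ^ 3 + 9 * x) (N := 1570796 / 1000000 * (15 * x ^ 3 + 9 * x) - (15 * x ^ 2 + 4)) (by positivity) (by norm_num) hA ?_
  have e : (x ^ 2 - ((-47 / 625) + (31693 / 10000) * x + (41 / 2000) * x ^ 2 + (11173 / 100000) * x ^ 3 + (-4031 / 1000000) * x ^ 4)) * (15 * x ^ 3 + 9 * x) + (7313 / 2500) * (1570796 / 1000000 * (15 * x ^ 3 + 9 * x) - (15 * x ^ 2 + 4)) = (53259493 / 640000000000) * (5 - x) ^ 7 + (944576263 / 640000000000) * (x - 1) * (5 - x) ^ 6 + (453157353 / 128000000000) * (x - 1) ^ 2 * (5 - x) ^ 5 + (90710371 / 128000000000) * (x - 1) ^ 3 * (5 - x) ^ 4 + (677691311 / 25600000000) * (x - 1) ^ 4 * (5 - x) ^ 3 + (295426970253 / 640000000000) * (x - 1) ^ 5 * (5 - x) ^ 2 + (335375806903 / 640000000000) * (x - 1) ^ 6 * (5 - x) + (19301927513 / 128000000000)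 * (x - 1) ^ 7 := by
    ring
  rw [e]
  exact h

theorem C2_p3 (x : ℝ) (h1 : 5 ≤ x) (h2 : x ≤ (457 / 50)) :
    0 ≤ (x ^ 2 - ((-47 / 625) + (31693 / 10000) * x + (41 / 2000) * x ^ 2 + (11173 / 100000) * x ^ 3 + (-4031 / 1000000) * x ^ 4)) + (7313 / 2500) * Real.arctan x := by
  have hA := bt3 x (by linarith)
  have key : ∀ u v : ℝ, 0 ≤ u → 0 ≤ v → 0 ≤ (1930192751300000 / 16285174563412143) * v ^ 7 + (20553316539376400 / 16285174563412143) * u * v ^ 6 + (29808252687807350 / 5428391521137381) * u ^ 2 * v ^ 5 + (2021098471623942799 / 162851745634121430) * u ^ 3 * v ^ 4 + (4950813139669771217 / 325703491268242860) * u ^ 4 * v ^ 3 + (2547148081562581387 / 271419576056869050) * u ^ 5 * v ^ 2 + (28713613657361463829 / 13028139650729714400) * u ^ 6 * v + (56051870872718548549 / 3257034912682428600000) * u ^ 7 := by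
    intro u v hu hv
    positivity
  have h := key (x - 5) ((457 / 50) - x) (by linarith) (by linarith)
  have hx : 0 ≤ x := by linarith
  have hx0 : 0 < x := by linarith
  refine CT_lo (D := 15 * x ^ 3 + 9 * x) (N := 1570796 / 1000000 * (15 * x ^ 3 + 9 * x) - (15 * x ^ 2 + 4)) (by positivity) (by norm_num) hA ?_
  have e : (x ^ 2 - ((-47 / 625) + (31693 / 10000) * x + (41 / 2000) * x ^ 2 + (11173 / 100000) * x ^ 3 + (-4031 / 1000000) * x ^ 4)) * (15 * x ^ 3 + 9 * x) + (7313 / 2500) * (1570796 / 1000000 * (15 * x ^ 3 + 9 * x) - (15 * x ^ 2 + 4)) = (1930192751300000 / 16285174563412143) * ((457 / 50) - x) ^ 7 + (20553316539376400 / 16285174563412143) * (x - 5) * ((457 / 50) - x) ^ 6 + (29808252687807350 / 5428391521137381) * (x - 5) ^ 2 * ((457 / 50) - x) ^ 5 + (2021098471623942799 / 162851745634121430) * (x - 5) ^ 3 * ((457 / 50) - x) ^ 4 + (4950813139669771217 / 325703491268242860) * (x - 5) ^ 4 * ((457 / 50) - x) ^ 3 + (2547148081562581387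 / 271419576056869050) * (x - 5) ^ 5 * ((457 / 50) - x) ^ 2 + (28713613657361463829 / 13028139650729714400) * (x - 5) ^ 6 * ((457 / 50) - x) + (56051870872718548549 / 3257034912682428600000) * (x - 5) ^ 7 := by
    ring
  rw [e]
  exact h

theorem C2_m1 (x : ℝ) (h1 : 0 ≤ x) (h2 : x ≤ 1) :
    0 ≤ (-(x ^ 2) - ((-47 / 625) - (31693 / 10000) * x + (41 / 2000) * x ^ 2 - (11173 / 100000) * x ^ 3 + (-4031 / 1000000) * x ^ 4)) - (7313 / 2500) * Real.arctan x := by
  have hA := at3 x (by linarith)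
  have key : ∀ u v : ℝ, 0 ≤ u → 0 ≤ v → 0 ≤ (141 / 125) * v ^ 6 + (20859 / 2000) * u * v ^ 5 + (12873 / 625) * u ^ 2 * v ^ 4 + (383021 / 20000) * u ^ 3 * v ^ 3 + (2424663 / 200000) * u ^ 4 * v ^ 2 + (19227 / 4000) * u ^ 5 * v + (71933 / 125000) * u ^ 6 := by
    intro u v hu hv
    positivity
  have h := key (x - 0) (1 - x) (by linarith) (by linarith)
  have hx : 0 ≤ x := by linarith
  have hx0 : 0 ≤ x := by linarith
  refine CT_up (D := 15 + 9 * x ^ 2) (N := 15 * x + 4 * x ^ 3) (by positivity) (by norm_num) hA ?_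
  have e : (-(x ^ 2) - ((-47 / 625) - (31693 / 10000) * x + (41 / 2000) * x ^ 2 - (11173 / 100000) * x ^ 3 + (-4031 / 1000000) * x ^ 4)) * (15 + 9 * x ^ 2) - (7313 / 2500) * (15 * x + 4 * x ^ 3) = (141 / 125) * (1 - x) ^ 6 + (20859 / 2000) * (x - 0) * (1 - x) ^ 5 + (12873 / 625) * (x - 0) ^ 2 * (1 - x) ^ 4 + (383021 / 20000) * (x - 0) ^ 3 * (1 - x) ^ 3 + (2424663 / 200000) * (x - 0) ^ 4 * (1 - x) ^ 2 + (19227 / 4000) * (x - 0) ^ 5 * (1 - x) + (71933 / 125000) * (x - 0) ^ 6 := by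
    ring
  rw [e]
  exact h

theorem C2_m2 (x : ℝ) (h1 : 1 ≤ x) (h2 : x ≤ (13 / 4)) :
    0 ≤ (-(x ^ 2) - ((-47 / 625) - (31693 / 10000) * x + (41 / 2000) * x ^ 2 - (11173 / 100000) * x ^ 3 + (-4031 / 1000000) * x ^ 4)) - (7313 / 2500) * Real.arctan x := by
  have hA := bt4 x (by linarith)
  have key : ∀ u v : ℝ, 0 ≤ u → 0 ≤ v → 0 ≤ (5110325729792 / 420378134765625) * v ^ 8 + (85645730043136 / 420378134765625) * u * v ^ 7 + (620509126852736 / 420378134765625) * u ^ 2 * v ^ 6 + (2609581972951672 / 420378134765625) * u ^ 3 * v ^ 5 + (2461350308228027 / 168151253906250) * u ^ 4 * v ^ 4 + (7189023087070612 / 420378134765625) * u ^ 5 * v ^ 3 + (2026173374079416 / 420378134765625) * u ^ 6 * v ^ 2 + (318379508226773 / 3363025078125000) * u ^ 7 * v + (82995633842686703 / 26904200625000000) * u ^ 8 := by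
    intro u v hu hv
    positivity
  have h := key (x - 1) ((13 / 4) - x) (by linarith) (by linarith)
  have hx : 0 ≤ x := by linarith
  have hx0 : 0 < x := by linarith
  refine CT_up (D := 105 * x ^ 4 + 90 * x ^ 2 + 9) (N := 15707965 / 10000000 * (105 * x ^ 4 + 90 * x ^ 2 + 9) - (105 * x ^ 3 + 55 * x)) (by positivity) (by norm_num) hA ?_
  have e : (-(x ^ 2) - ((-47 / 625) - (31693 / 10000) * x + (41 / 2000) * x ^ 2 - (11173 / 100000) * x ^ 3 + (-4031 / 1000000) * x ^ 4)) * (105 * x ^ 4 + 90 * x ^ 2 + 9) - (7313 / 2500) * (15707965 / 10000000 * (105 * x ^ 4 + 90 * x ^ 2 + 9) - (105 * x ^ 3 + 55 * x)) = (5110325729792 / 420378134765625) * ((13 / 4) - x) ^ 8 + (85645730043136 / 420378134765625) * (x - 1) * ((13 / 4) - x) ^ 7 + (620509126852736 / 420378134765625) * (x - 1) ^ 2 * ((13 / 4) - x) ^ 6 + (2609581972951672 / 420378134765625) * (x - 1) ^ 3 * ((13 / 4) - x) ^ 5 + (2461350308228027 / 168151253906250) * (x - 1) ^ 4 * ((13 /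 4) - x) ^ 4 + (7189023087070612 / 420378134765625) * (x - 1) ^ 5 * ((13 / 4) - x) ^ 3 + (2026173374079416 / 420378134765625) * (x - 1) ^ 6 * ((13 / 4) - x) ^ 2 + (318379508226773 / 3363025078125000) * (x - 1) ^ 7 * ((13 / 4) - x) + (82995633842686703 / 26904200625000000) * (x - 1) ^ 8 := by
    ring
  rw [e]
  exact h

theorem C2_m3 (x : ℝ) (h1 : (13 / 4) ≤ x) (h2 : x ≤ (457 / 50)) :
    0 ≤ (-(x ^ 2) - ((-47 / 625) - (31693 / 10000) * x + (41 / 2000) * x ^ 2 - (11173 / 100000) * x ^ 3 + (-4031 / 1000000) * x ^ 4)) - (7313 / 2500) * Real.arctan x := by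
  have hA := bt4 x (by linarith)
  have key : ∀ u v : ℝ, 0 ≤ u → 0 ≤ v → 0 ≤ (1296806778791979734375 / 927048236894919348357184) * v ^ 8 + (4678536140111208815625 / 115881029611864918544648) * u * v ^ 7 + (7601422406584256253250 / 14485128701483114818081) * u ^ 2 * v ^ 6 + (111951680604753893111465 / 28970257402966229636162) * u ^ 3 * v ^ 5 + (1254673047196359088804113 / 72425643507415574090405) * u ^ 4 * v ^ 4 + (3477530937731495820116602 / 72425643507415574090405) * u ^ 5 * v ^ 3 + (5787385528136828404193548 / 72425643507415574090405) * u ^ 6 * v ^ 2 + (131235820246857725483412264 / 1810641087685389352260125) * u ^ 7 * v + (1225159093470180224295310004 / 45266027192134733806503125) * u ^ 8 := by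
    intro u v hu hv
    positivity
  have h := key (x - (13 / 4)) ((457 / 50) - x) (by linarith) (by linarith)
  have hx : 0 ≤ x := by linarith
  have hx0 : 0 < x := by linarith
  refine CT_up (D := 105 * x ^ 4 + 90 * x ^ 2 + 9) (N := 15707965 / 10000000 * (105 * x ^ 4 + 90 * x ^ 2 + 9) - (105 * x ^ 3 + 55 * x)) (by positivity) (by norm_num) hA ?_
  have e : (-(x ^ 2) - ((-47 / 625) - (31693 / 10000) * x + (41 / 2000) * x ^ 2 - (11173 / 100000) * x ^ 3 + (-4031 / 1000000) * x ^ 4)) * (105 * x ^ 4 + 90 * x ^ 2 + 9) - (7313 / 2500) * (15707965 / 10000000 * (105 * x ^ 4 + 90 * x ^ 2 + 9) - (105 * x ^ 3 + 55 * x)) = (1296806778791979734375 / 927048236894919348357184) * ((457 / 50) - x) ^ 8 + (4678536140111208815625 / 115881029611864918544648) * (x - (13 / 4)) * ((457 / 50) - x) ^ 7 + (7601422406584256253250 / 14485128701483114818081) * (x - (13 / 4)) ^ 2 * ((457 / 50) - x) ^ 6 + (111951680604753893111465 / 28970257402966229636162) *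 (x - (13 / 4)) ^ 3 * ((457 / 50) - x) ^ 5 + (1254673047196359088804113 / 72425643507415574090405) * (x - (13 / 4)) ^ 4 * ((457 / 50) - x) ^ 4 + (3477530937731495820116602 / 72425643507415574090405) * (x - (13 / 4)) ^ 5 * ((457 / 50) - x) ^ 3 + (5787385528136828404193548 / 72425643507415574090405) * (x - (13 / 4)) ^ 6 * ((457 / 50) - x) ^ 2 + (131235820246857725483412264 / 1810641087685389352260125) * (x - (13 / 4)) ^ 7 * ((457 / 50) - x) + (1225159093470180224295310004 / 45266027192134733806503125) * (x - (13 / 4)) ^ 8 := by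
    ring
  rw [e]
  exact h

theorem C3_p1 (x : ℝ) (h1 : 0 ≤ x) (h2 : x ≤ (5 / 4)) :
    0 ≤ (x ^ 2 - ((-791 / 10000) + (8551 / 1250) * x + (-713 / 50000) * x ^ 2 + (5913 / 125000) * x ^ 3 + (-923 / 3125000) * x ^ 4)) + (2563 / 200) * Real.arctan (x / 2) := by
  have hA := at4 (x / 2) (by linarith)
  have key : ∀ u v : ℝ, 0 ≤ u → 0 ≤ v → 0 ≤ (68038656 / 48828125) * v ^ 8 + (78425088 / 48828125) * u * v ^ 7 + (29839488 / 48828125) * u ^ 2 * v ^ 6 + (1209766096 / 48828125) * u ^ 3 * v ^ 5 + (4041337451 / 48828125) * u ^ 4 * v ^ 4 + (1121391602 / 9765625) * u ^ 5 * v ^ 3 + (63724782529 / 781250000) * u ^ 6 * v ^ 2 + (45906376819 / 1562500000) * u ^ 7 * v + (26587786091 / 6250000000) * u ^ 8 := by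
    intro u v hu hv
    positivity
  have h := key (x - 0) ((5 / 4) - x) (by linarith) (by linarith)
  have hx : 0 ≤ x := by linarith
  have hx0 : 0 ≤ x := by linarith
  refine CT_lo (D := 105 + 90 * (x / 2) ^ 2 + 9 * (x / 2) ^ 4) (N := 105 * (x / 2) + 55 * (x / 2) ^ 3) (by positivity) (by norm_num) hA ?_
  have e : (x ^ 2 - ((-791 / 10000) + (8551 / 1250) * x + (-713 / 50000) * x ^ 2 + (5913 / 125000) * x ^ 3 + (-923 / 3125000) * x ^ 4)) * (105 + 90 * (x / 2) ^ 2 + 9 * (x / 2) ^ 4) + (2563 / 200) * (105 * (x / 2) + 55 * (x / 2) ^ 3) = (68038656 / 48828125) * ((5 / 4) - x) ^ 8 + (78425088 / 48828125) * (x - 0) * ((5 / 4) - x) ^ 7 + (29839488 / 48828125) * (x - 0) ^ 2 * ((5 / 4) - x) ^ 6 + (1209766096 / 48828125) * (x - 0) ^ 3 * ((5 / 4) - x) ^ 5 + (4041337451 / 48828125) * (x - 0) ^ 4 * ((5 / 4) - x) ^ 4 + (1121391602 / 9765625) * (x - 0) ^ 5 * ((5 / 4) - x) ^ 3 + (63724782529 / 781250000) * (x - 0) ^ 6 * ((5 / 4) - x) ^ 2 + (45906376819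 / 1562500000) * (x - 0) ^ 7 * ((5 / 4) - x) + (26587786091 / 6250000000) * (x - 0) ^ 8 := by
    ring
  rw [e]
  exact h

theorem C3_p2 (x : ℝ) (h1 : (5 / 4) ≤ x) (h2 : x ≤ 2) :
    0 ≤ (x ^ 2 - ((-791 / 10000) + (8551 / 1250) * x + (-713 / 50000) * x ^ 2 + (5913 / 125000) * x ^ 3 + (-923 / 3125000) * x ^ 4)) + (2563 / 200) * Real.arctan (x / 2) := by
  have hA := at4 (x / 2) (by linarith)
  have key : ∀ u v : ℝ, 0 ≤ u → 0 ≤ v → 0 ≤ (26587786091 / 104976000) * v ^ 8 + (287685446999 / 131220000) * u * v ^ 7 + (2673051474349 / 328050000) * u ^ 2 * v ^ 6 + (1740641867203 / 102515625) * u ^ 3 * v ^ 5 + (11117144036311 / 512578125) * u ^ 4 * v ^ 4 + (8905696683824 / 512578125) * u ^ 5 * v ^ 3 + (4361143613824 / 512578125) * u ^ 6 * v ^ 2 + (1189753616384 / 512578125) * u ^ 7 * v + (688386228224 / 2562890625) * u ^ 8 := by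
    intro u v hu hv
    positivity
  have h := key (x - (5 / 4)) (2 - x) (by linarith) (by linarith)
  have hx : 0 ≤ x := by linarith
  have hx0 : 0 ≤ x := by linarith
  refine CT_lo (D := 105 + 90 * (x / 2) ^ 2 + 9 * (x / 2) ^ 4) (N := 105 * (x / 2) + 55 * (x / 2) ^ 3) (by positivity) (by norm_num) hA ?_
  have e : (x ^ 2 - ((-791 / 10000) + (8551 / 1250) * x + (-713 / 50000) * x ^ 2 + (5913 / 125000) * x ^ 3 + (-923 / 3125000) * x ^ 4)) * (105 + 90 * (x / 2) ^ 2 + 9 * (x / 2) ^ 4) + (2563 / 200) * (105 * (x / 2) + 55 * (x / 2) ^ 3) = (26587786091 / 104976000) * (2 - x) ^ 8 + (287685446999 / 131220000) * (x - (5 / 4)) * (2 - x) ^ 7 + (2673051474349 / 328050000) * (x - (5 / 4)) ^ 2 * (2 - x) ^ 6 + (1740641867203 / 102515625) * (x - (5 / 4)) ^ 3 * (2 - x) ^ 5 + (11117144036311 / 512578125) * (x - (5 / 4)) ^ 4 * (2 - x) ^ 4 + (8905696683824 / 512578125) * (x - (5 / 4)) ^ 5 * (2 - x) ^ 3 + (4361143613824 / 512578125) * (x - (5 / 4))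 ^ 6 * (2 - x) ^ 2 + (1189753616384 / 512578125) * (x - (5 / 4)) ^ 7 * (2 - x) + (688386228224 / 2562890625) * (x - (5 / 4)) ^ 8 := by
    ring
  rw [e]
  exact h

theorem C3_p3 (x : ℝ) (h1 : 2 ≤ x) (h2 : x ≤ (7 / 2)) :
    0 ≤ (x ^ 2 - ((-791 / 10000) + (8551 / 1250) * x + (-713 / 50000) * x ^ 2 + (5913 / 125000) * x ^ 3 + (-923 / 3125000) * x ^ 4)) + (2563 / 200) * Real.arctan (x / 2) := by
  have hA := bt3 (x / 2) (by linarith)
  have key : ∀ u v : ℝ, 0 ≤ u → 0 ≤ v → 0 ≤ (3138056 / 34171875) * v ^ 7 + (1586393497 / 1708593750) * u * v ^ 6 + (13164094367 / 4556250000) * u ^ 2 * v ^ 5 + (41647597997 / 10935000000) * u ^ 3 * v ^ 4 + (5309043281 / 2733750000) * u ^ 4 * v ^ 3 + (297651197 / 1139062500) * u ^ 5 * v ^ 2 + (9814605793 / 27337500000) * u ^ 6 * v + (48564184 / 170859375) * u ^ 7 := by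
    intro u v hu hv
    positivity
  have h := key (x - 2) ((7 / 2) - x) (by linarith) (by linarith)
  have hx : 0 ≤ x := by linarith
  have hx0 : 0 < x := by linarith
  refine CT_lo (D := 15 * (x / 2) ^ 3 + 9 * (x / 2)) (N := 1570796 / 1000000 * (15 * (x / 2) ^ 3 + 9 * (x / 2)) - (15 * (x / 2) ^ 2 + 4)) (by positivity) (by norm_num) hA ?_
  have e : (x ^ 2 - ((-791 / 10000) + (8551 / 1250) * x + (-713 / 50000) * x ^ 2 + (5913 / 125000) * x ^ 3 + (-923 / 3125000) * x ^ 4)) * (15 * (x / 2) ^ 3 + 9 * (x / 2)) + (2563 / 200) * (1570796 / 1000000 * (15 * (x / 2) ^ 3 + 9 * (x / 2)) - (15 * (x / 2) ^ 2 + 4)) = (3138056 / 34171875) * ((7 / 2) - x) ^ 7 + (1586393497 / 1708593750) * (x - 2) * ((7 / 2) - x) ^ 6 + (13164094367 / 4556250000) * (x - 2) ^ 2 * ((7 / 2) - x) ^ 5 + (41647597997 / 10935000000) * (x - 2) ^ 3 * ((7 / 2) - x) ^ 4 + (5309043281 / 2733750000) * (x - 2) ^ 4 * ((7 / 2) - x) ^ 3 + (297651197 / 1139062500) * (x - 2) ^ 5 *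 ((7 / 2) - x) ^ 2 + (9814605793 / 27337500000) * (x - 2) ^ 6 * ((7 / 2) - x) + (48564184 / 170859375) * (x - 2) ^ 7 := by
    ring
  rw [e]
  exact h

theorem C3_p4 (x : ℝ) (h1 : (7 / 2) ≤ x) (h2 : x ≤ (3713 / 250)) :
    0 ≤ (x ^ 2 - ((-791 / 10000) + (8551 / 1250) * x + (-713 / 50000) * x ^ 2 + (5913 / 125000) * x ^ 3 + (-923 / 3125000) * x ^ 4)) + (2563 / 200) * Real.arctan (x / 2) := by
  have hA := bt3 (x / 2) (by linarith)
  have key : ∀ u v : ℝ, 0 ≤ u → 0 ≤ v → 0 ≤ (37051531982421875 / 185351775640816293528624) * v ^ 7 + (239106898981943359375 / 23725027282024485571663872) * u * v ^ 6 + (871739378208273828125 / 3954171213670747595277312) * u ^ 2 * v ^ 5 + (51136812058783056190625 / 23725027282024485571663872) * u ^ 3 * v ^ 4 + (29333217207269988682675 / 2965628410253060696457984) * u ^ 4 * v ^ 3 + (3997274738687320715448463 / 197708560683537379763865600) * u ^ 5 * v ^ 2 + (86916979084871828692222613 / 7414071025632651741144960000)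 * u ^ 6 * v + (9787664346471011799551087 / 1853517756408162935286240000000) * u ^ 7 := by
    intro u v hu hv
    positivity
  have h := key (x - (7 / 2)) ((3713 / 250) - x) (by linarith) (by linarith)
  have hx : 0 ≤ x := by linarith
  have hx0 : 0 < x := by linarith
  refine CT_lo (D := 15 * (x / 2) ^ 3 + 9 * (x / 2)) (N := 1570796 / 1000000 * (15 * (x / 2) ^ 3 + 9 * (x / 2)) - (15 * (x / 2) ^ 2 + 4)) (by positivity) (by norm_num) hA ?_
  have e : (x ^ 2 - ((-791 / 10000) + (8551 / 1250) * x + (-713 / 50000) * x ^ 2 + (5913 / 125000) * x ^ 3 + (-923 / 3125000) * x ^ 4)) * (15 * (x / 2) ^ 3 + 9 * (x / 2)) + (2563 / 200) * (1570796 / 1000000 * (15 * (x / 2) ^ 3 + 9 * (x / 2)) - (15 * (x / 2) ^ 2 + 4)) = (37051531982421875 / 185351775640816293528624) * ((3713 / 250) - x) ^ 7 + (239106898981943359375 / 23725027282024485571663872) * (x - (7 / 2)) * ((3713 / 250) - x) ^ 6 + (871739378208273828125 / 3954171213670747595277312) * (x - (7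 / 2)) ^ 2 * ((3713 / 250) - x) ^ 5 + (51136812058783056190625 / 23725027282024485571663872) * (x - (7 / 2)) ^ 3 * ((3713 / 250) - x) ^ 4 + (29333217207269988682675 / 2965628410253060696457984) * (x - (7 / 2)) ^ 4 * ((3713 / 250) - x) ^ 3 + (3997274738687320715448463 / 197708560683537379763865600) * (x - (7 / 2)) ^ 5 * ((3713 / 250) - x) ^ 2 + (86916979084871828692222613 / 7414071025632651741144960000) * (x - (7 / 2)) ^ 6 * ((3713 / 250) - x) + (9787664346471011799551087 / 1853517756408162935286240000000) * (x - (7 / 2)) ^ 7 := by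
    ring
  rw [e]
  exact h

theorem C3_m1 (x : ℝ) (h1 : 0 ≤ x) (h2 : x ≤ (7 / 4)) :
    0 ≤ (-(x ^ 2) - ((-791 / 10000) - (8551 / 1250) * x + (-713 / 50000) * x ^ 2 - (5913 / 125000) * x ^ 3 + (-923 / 3125000) * x ^ 4)) - (2563 / 200) * Real.arctan (x / 2) := by
  have hA := at5 (x / 2) (by linarith)
  have key : ∀ u v : ℝ, 0 ≤ u → 0 ≤ v → 0 ≤ (12496896 / 14706125) * v ^ 8 + (219773952 / 14706125) * u * v ^ 7 + (515853696 / 10504375) * u ^ 2 * v ^ 6 + (3613652976 / 52521875) * u ^ 3 * v ^ 5 + (57137801253 / 1313046875) * u ^ 4 * v ^ 4 + (10794663262 / 1313046875) * u ^ 5 * v ^ 3 + (10697424183 / 21008750000) * u ^ 6 * v ^ 2 + (1065074032623 / 294122500000) * u ^ 7 * v + (1895052477923 / 1176490000000) * u ^ 8 := by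
    intro u v hu hv
    positivity
  have h := key (x - 0) ((7 / 4) - x) (by linarith) (by linarith)
  have hx : 0 ≤ x := by linarith
  have hx0 : 0 ≤ x := by linarith
  refine CT_up (D := 945 + 1050 * (x / 2) ^ 2 + 225 * (x / 2) ^ 4) (N := 945 * (x / 2) + 735 * (x / 2) ^ 3 + 64 * (x / 2) ^ 5) (by positivity) (by norm_num) hA ?_
  have e : (-(x ^ 2) - ((-791 / 10000) - (8551 / 1250) * x + (-713 / 50000) * x ^ 2 - (5913 / 125000) * x ^ 3 + (-923 / 3125000) * x ^ 4)) * (945 + 1050 * (x / 2) ^ 2 + 225 * (x / 2) ^ 4) - (2563 / 200) * (945 * (x / 2) + 735 * (x / 2) ^ 3 + 64 * (x / 2) ^ 5) = (12496896 / 14706125) * ((7 / 4) - x) ^ 8 + (219773952 / 14706125) * (x - 0) * ((7 / 4) - x) ^ 7 + (515853696 / 10504375) * (x - 0) ^ 2 * ((7 / 4) - x) ^ 6 + (3613652976 / 52521875) * (x - 0) ^ 3 * ((7 / 4) - x) ^ 5 + (57137801253 / 1313046875) * (x - 0) ^ 4 * ((7 / 4) - x) ^ 4 + (10794663262 / 1313046875) * (x - 0) ^ 5 * ((7 / 4) - x) ^ 3 + (10697424183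 / 21008750000) * (x - 0) ^ 6 * ((7 / 4) - x) ^ 2 + (1065074032623 / 294122500000) * (x - 0) ^ 7 * ((7 / 4) - x) + (1895052477923 / 1176490000000) * (x - 0) ^ 8 := by
    ring
  rw [e]
  exact h

theorem C3_m2 (x : ℝ) (h1 : (7 / 4) ≤ x) (h2 : x ≤ 2) :
    0 ≤ (-(x ^ 2) - ((-791 / 10000) - (8551 / 1250) * x + (-713 / 50000) * x ^ 2 - (5913 / 125000) * x ^ 3 + (-923 / 3125000) * x ^ 4)) - (2563 / 200) * Real.arctan (x / 2) := by
  have hA := at5 (x / 2) (by linarith)
  have key : ∀ u v : ℝ, 0 ≤ u → 0 ≤ v → 0 ≤ (92857571418227 / 10000000) * v ^ 8 + (40958071859803 / 500000) * u * v ^ 7 + (394744564110589 / 1250000) * u ^ 2 * v ^ 6 + (10854506541417 / 15625) * u ^ 3 * v ^ 5 + (74496866721039 / 78125) * u ^ 4 * v ^ 4 + (13065697670256 / 15625) * u ^ 5 * v ^ 3 + (35737635887744 / 78125) * u ^ 6 * v ^ 2 + (2229905790976 / 15625) * u ^ 7 * v + (1518761099264 / 78125) * u ^ 8 := by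
    intro u v hu hv
    positivity
  have h := key (x - (7 / 4)) (2 - x) (by linarith) (by linarith)
  have hx : 0 ≤ x := by linarith
  have hx0 : 0 ≤ x := by linarith
  refine CT_up (D := 945 + 1050 * (x / 2) ^ 2 + 225 * (x / 2) ^ 4) (N := 945 * (x / 2) + 735 * (x / 2) ^ 3 + 64 * (x / 2) ^ 5) (by positivity) (by norm_num) hA ?_
  have e : (-(x ^ 2) - ((-791 / 10000) - (8551 / 1250) * x + (-713 / 50000) * x ^ 2 - (5913 / 125000) * x ^ 3 + (-923 / 3125000) * x ^ 4)) * (945 + 1050 * (x / 2) ^ 2 + 225 * (x / 2) ^ 4) - (2563 / 200) * (945 * (x / 2) + 735 * (x / 2) ^ 3 + 64 * (x / 2) ^ 5) = (92857571418227 / 10000000) * (2 - x) ^ 8 + (40958071859803 / 500000) * (x - (7 / 4)) * (2 - x) ^ 7 + (394744564110589 / 1250000) * (x - (7 / 4)) ^ 2 * (2 - x) ^ 6 + (10854506541417 / 15625) * (x - (7 / 4)) ^ 3 * (2 - x) ^ 5 + (74496866721039 / 78125) * (x - (7 / 4)) ^ 4 * (2 - x) ^ 4 + (13065697670256 / 15625) * (x - (7 / 4)) ^ 5 * (2 - x) ^ 3 + (35737635887744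 / 78125) * (x - (7 / 4)) ^ 6 * (2 - x) ^ 2 + (2229905790976 / 15625) * (x - (7 / 4)) ^ 7 * (2 - x) + (1518761099264 / 78125) * (x - (7 / 4)) ^ 8 := by
    ring
  rw [e]
  exact h

theorem C3_m3 (x : ℝ) (h1 : 2 ≤ x) (h2 : x ≤ (29 / 4)) :
    0 ≤ (-(x ^ 2) - ((-791 / 10000) - (8551 / 1250) * x + (-713 / 50000) * x ^ 2 - (5913 / 125000) * x ^ 3 + (-923 / 3125000) * x ^ 4)) - (2563 / 200) * Real.arctan (x / 2) := by
  have hA := bt4 (x / 2) (by linarith)
  have key : ∀ u v : ℝ, 0 ≤ u → 0 ≤ v → 0 ≤ (127552946944 / 2954910887578125) * v ^ 8 + (18677169157312 / 14774554437890625) * u * v ^ 7 + (5699330521456 / 422130126796875) * u ^ 2 * v ^ 6 + (318533473221791 / 4221301267968750) * u ^ 3 * v ^ 5 + (30451569506241803 / 135081640575000000) * u ^ 4 * v ^ 4 + (11591127193713643 / 33770410143750000) * u ^ 5 * v ^ 3 + (12536651774496271 / 67540820287500000) * u ^ 6 * v ^ 2 + (1656754635607187 / 472785742012500000) * u ^ 7 * v + (305312013082901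 / 378228593610000000) * u ^ 8 := by
    intro u v hu hv
    positivity
  have h := key (x - 2) ((29 / 4) - x) (by linarith) (by linarith)
  have hx : 0 ≤ x := by linarith
  have hx0 : 0 < x := by linarith
  refine CT_up (D := 105 * (x / 2) ^ 4 + 90 * (x / 2) ^ 2 + 9) (N := 15707965 / 10000000 * (105 * (x / 2) ^ 4 + 90 * (x / 2) ^ 2 + 9) - (105 * (x / 2) ^ 3 + 55 * (x / 2))) (by positivity) (by norm_num) hA ?_
  have e : (-(x ^ 2) - ((-791 / 10000) - (8551 / 1250) * x + (-713 / 50000) * x ^ 2 - (5913 / 125000) * x ^ 3 + (-923 / 3125000) * x ^ 4)) * (105 * (x / 2) ^ 4 + 90 * (x / 2) ^ 2 + 9) - (2563 / 200) * (15707965 / 10000000 * (105 * (x / 2) ^ 4 + 90 * (x / 2) ^ 2 + 9) - (105 * (x / 2) ^ 3 + 55 * (x / 2))) = (127552946944 / 2954910887578125) * ((29 / 4) - x) ^ 8 + (18677169157312 / 14774554437890625) * (x - 2) * ((29 / 4) - x) ^ 7 + (5699330521456 / 422130126796875) * (x - 2) ^ 2 * ((29 / 4) - x) ^ 6 + (318533473221791 / 4221301267968750)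 * (x - 2) ^ 3 * ((29 / 4) - x) ^ 5 + (30451569506241803 / 135081640575000000) * (x - 2) ^ 4 * ((29 / 4) - x) ^ 4 + (11591127193713643 / 33770410143750000) * (x - 2) ^ 5 * ((29 / 4) - x) ^ 3 + (12536651774496271 / 67540820287500000) * (x - 2) ^ 6 * ((29 / 4) - x) ^ 2 + (1656754635607187 / 472785742012500000) * (x - 2) ^ 7 * ((29 / 4) - x) + (305312013082901 / 378228593610000000) * (x - 2) ^ 8 := by
    ring
  rw [e]
  exact h

theorem C3_m4 (x : ℝ) (h1 : (29 / 4) ≤ x) (h2 : x ≤ (3713 / 250)) :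
    0 ≤ (-(x ^ 2) - ((-791 / 10000) - (8551 / 1250) * x + (-713 / 50000) * x ^ 2 - (5913 / 125000) * x ^ 3 + (-923 / 3125000) * x ^ 4)) - (2563 / 200) * Real.arctan (x / 2) := by
  have hA := bt4 (x / 2) (by linarith)
  have key : ∀ u v : ℝ, 0 ≤ u → 0 ≤ v → 0 ≤ (232934580293961334228515625 / 5576900889809746573470252851328) * v ^ 8 + (774392298570283463134765625 / 1394225222452436643367563212832) * u * v ^ 7 + (4510675925993020168251953125 / 199175031778919520481080458976) * u ^ 2 * v ^ 6 + (24212813668806832867041953125 / 99587515889459760240540229488) * u ^ 3 * v ^ 5 + (466730072149809223542116226875 / 398350063557839040962160917952) * u ^ 4 * v ^ 4 + (150876238262531480244997223075 / 49793757944729880120270114744) * u ^ 5 * v ^ 3 + (217717099089353949162839018293 / 49793757944729880120270114744) * u ^ 6 * v ^ 2 + (180465762897868572336356669308379 / 54461922752048306381545438001250) * u ^ 7 * v + (13922338083921825290527288383761569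 / 13615480688012076595386359500312500) * u ^ 8 := by
    intro u v hu hv
    positivity
  have h := key (x - (29 / 4)) ((3713 / 250) - x) (by linarith) (by linarith)
  have hx : 0 ≤ x := by linarith
  have hx0 : 0 < x := by linarith
  refine CT_up (D := 105 * (x / 2) ^ 4 + 90 * (x / 2) ^ 2 + 9) (N := 15707965 / 10000000 * (105 * (x / 2) ^ 4 + 90 * (x / 2) ^ 2 + 9) - (105 * (x / 2) ^ 3 + 55 * (x / 2))) (by positivity) (by norm_num) hA ?_
  have e : (-(x ^ 2) - ((-791 / 10000) - (8551 / 1250) * x + (-713 / 50000) * x ^ 2 - (5913 / 125000) * x ^ 3 + (-923 / 3125000) * x ^ 4)) * (105 * (x / 2) ^ 4 + 90 * (x / 2) ^ 2 + 9) - (2563 / 200) * (15707965 / 10000000 * (105 * (x / 2) ^ 4 + 90 * (x / 2) ^ 2 + 9) - (105 * (x / 2) ^ 3 + 55 * (x / 2))) = (232934580293961334228515625 / 5576900889809746573470252851328) * ((3713 / 250) - x) ^ 8 + (774392298570283463134765625 / 1394225222452436643367563212832) * (x - (29 / 4)) * ((3713 / 250) - x) ^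 7 + (4510675925993020168251953125 / 199175031778919520481080458976) * (x - (29 / 4)) ^ 2 * ((3713 / 250) - x) ^ 6 + (24212813668806832867041953125 / 99587515889459760240540229488) * (x - (29 / 4)) ^ 3 * ((3713 / 250) - x) ^ 5 + (466730072149809223542116226875 / 398350063557839040962160917952) * (x - (29 / 4)) ^ 4 * ((3713 / 250) - x) ^ 4 + (150876238262531480244997223075 / 49793757944729880120270114744) * (x - (29 / 4)) ^ 5 * ((3713 / 250) - x) ^ 3 + (217717099089353949162839018293 / 49793757944729880120270114744) * (x - (29 / 4)) ^ 6 * ((3713 / 250) - x) ^ 2 + (180465762897868572336356669308379 / 54461922752048306381545438001250) * (x - (29 / 4)) ^ 7 * ((3713 / 250) - x) + (13922338083921825290527288383761569 / 13615480688012076595386359500312500) * (x - (29 / 4)) ^ 8 := by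
    ring
  rw [e]
  exact h

theorem C1 (x : ℝ) (hx : |x| ≤ 5) :
    (-26847 / 100000) + (83559 / 100000) * x + (3989 / 25000) * x ^ 2 + (14311 / 50000) * x ^ 3 + (-777 / 25000) * x ^ 4 ≤ x * |x| := by
  rcases le_total 0 x with h0 | h0
  · rw [abs_of_nonneg h0] at hx ⊢
    rcases le_total x (3 / 4) with g1 | h1
    · have := C1_p1 x (by linarith) (by linarith)
      linarith
    rcases le_total x (13 / 4) with g2 | h2
    · have := C1_p2 x (by linarith) (by linarith)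
      linarith
    rcases le_total x (31 / 8) with g3 | h3
    · have := C1_p3 x (by linarith) (by linarith)
      linarith
    have := C1_p4 x (by linarith) (by linarith)
    linarith
  · rw [abs_of_nonpos h0] at hx ⊢
    obtain ⟨y, rfl⟩ : ∃ y : ℝ, x = -y := ⟨-x, by ring⟩
    rw [neg_neg] at hx
    have h0' : 0 ≤ y := by linarith
    rcases le_total y (3 / 2) with g1 | h1
    · have := C1_m1 y (by linarith) (by linarith)
      linarith
    rcases le_total y (225 / 128) with g2 | h2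
    · have := C1_m2 y (by linarith) (by linarith)
      linarith
    have := C1_m3 y (by linarith) (by linarith)
    linarith

theorem C2 (x : ℝ) (hx : |x| ≤ (457 / 50)) :
    (-47 / 625) + (31693 / 10000) * x + (41 / 2000) * x ^ 2 + (11173 / 100000) * x ^ 3 + (-4031 / 1000000) * x ^ 4 - (7313 / 2500) * Real.arctan x ≤ x * |x| := by
  rcases le_total 0 x with h0 | h0
  · rw [abs_of_nonneg h0] at hx ⊢
    rcases le_total x 1 with g1 | h1
    · have := C2_p1 x (by linarith) (by linarith)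
      linarith
    rcases le_total x 5 with g2 | h2
    · have := C2_p2 x (by linarith) (by linarith)
      linarith
    have := C2_p3 x (by linarith) (by linarith)
    linarith
  · rw [abs_of_nonpos h0] at hx ⊢
    obtain ⟨y, rfl⟩ : ∃ y : ℝ, x = -y := ⟨-x, by ring⟩
    rw [neg_neg] at hx
    have h0' : 0 ≤ y := by linarith
    rw [Real.arctan_neg]
    rcases le_total y 1 with g1 | h1
    · have := C2_m1 y (by linarith) (by linarith)
      linarith
    rcases le_total y (13 / 4) with g2 | h2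
    · have := C2_m2 y (by linarith) (by linarith)
      linarith
    have := C2_m3 y (by linarith) (by linarith)
    linarith

theorem C3 (x : ℝ) (hx : |x| ≤ (3713 / 250)) :
    (-791 / 10000) + (8551 / 1250) * x + (-713 / 50000) * x ^ 2 + (5913 / 125000) * x ^ 3 + (-923 / 3125000) * x ^ 4 - (2563 / 200) * Real.arctan (x / 2) ≤ x * |x| := by
  rcases le_total 0 x with h0 | h0
  · rw [abs_of_nonneg h0] at hx ⊢
    rcases le_total x (5 / 4) with g1 | h1
    · have := C3_p1 x (by linarith) (by linarith)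
      linarith
    rcases le_total x 2 with g2 | h2
    · have := C3_p2 x (by linarith) (by linarith)
      linarith
    rcases le_total x (7 / 2) with g3 | h3
    · have := C3_p3 x (by linarith) (by linarith)
      linarith
    have := C3_p4 x (by linarith) (by linarith)
    linarith
  · rw [abs_of_nonpos h0] at hx ⊢
    obtain ⟨y, rfl⟩ : ∃ y : ℝ, x = -y := ⟨-x, by ring⟩
    rw [neg_neg] at hx
    have h0' : 0 ≤ y := by linarith
    have e1 : Real.arctan (-y / 2) = -Real.arctan (y / 2) := by rw [neg_div, Real.arctan_neg]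
    rw [e1]
    rcases le_total y (7 / 4) with g1 | h1
    · have := C3_m1 y (by linarith) (by linarith)
      linarith
    rcases le_total y 2 with g2 | h2
    · have := C3_m2 y (by linarith) (by linarith)
      linarith
    rcases le_total y (29 / 4) with g3 | h3
    · have := C3_m3 y (by linarith) (by linarith)
      linarith
    have := C3_m4 y (by linarith) (by linarith)
    linarith

end Pool.Agent.SQE
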